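import Pool.Agent.Helper9K9.ZU.Stm

/-!
Basic facts about the transcendence degree of tuples.
-/

set_option autoImplicit false

open MvPolynomial

namespace Pool.Agent.Helper9K9.ZU

section
variable {F K : Type} [CommRing F] [Nontrivial F] [Field K] {i : F →+* K} {I J : Type}

/-- an independent family is injective -/
theorem Indep.inj {y : J → K} (h : Indep i y) : Function.Injective y := by
  intro a b hab
  by_contra hne
  have h1 : (X a - X b : MvPolynomial J F) = 0 := h _ (by
    rw [eval₂_sub, eval₂_X, eval₂_X, hab, sub_self])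
  exact hne (X_injective (sub_eq_zero.1 h1))

theorem card_le_of_indep [Fintype I] {y : I → K} {d : ℕ} {s : Fin d → I}
    (h : Indep i (fun j => y (s j))) : d ≤ Fintype.card I := by
  have h1 : Function.Injective s := fun a b hab => h.inj (by simp only [hab])
  simpa using Fintype.card_le_of_injective s h1

theorem bdd_td [Fintype I] (i : F →+* K) (y : I → K) :
    BddAbove {d : ℕ | ∃ s : Fin d → I, Indep i (fun j => y (s j))} :=
  ⟨Fintype.card I, fun _ ⟨_, hs⟩ => card_le_of_indep hs⟩

theorem le_td [Fintype I] {y : I → K} {d : ℕ} {s : Fin d → I}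
    (h : Indep i (fun j => y (s j))) : d ≤ td i y :=
  le_csSup (bdd_td i y) ⟨s, h⟩

theorem td_le_card [Fintype I] (i : F →+* K) (y : I → K) : td i y ≤ Fintype.card I := by
  unfold td
  rcases Set.eq_empty_or_nonempty {d : ℕ | ∃ s : Fin d → I, Indep i (fun j => y (s j))} with h | h
  · rw [h, csSup_empty]
    exact Nat.zero_le _
  · exact csSup_le h fun _ ⟨_, hs⟩ => card_le_of_indep hs

/-- the supremum is attained, if the ring homomorphism is injective -/
theorem exists_td [Fintype I] (hi : Function.Injective i) (y : I → K) :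
    ∃ s : Fin (td i y) → I, Indep i (fun j => y (s j)) := by
  refine Nat.sSup_mem (s := {d : ℕ | ∃ s : Fin d → I, Indep i (fun j => y (s j))}) ?_ (bdd_td i y)
  refine ⟨0, Fin.elim0, ?_⟩
  intro f hf
  rw [eq_C_of_isEmpty f] at hf ⊢
  rw [eval₂_C] at hf
  rw [hi (hf.trans (map_zero i).symm), C_0]

theorem td_comp_le [Fintype I] [Fintype J] (i : F →+* K) (y : J → K) (τ : I → J) :
    td i (fun j => y (τ j)) ≤ td i y := by
  unfold td
  rcases Set.eq_empty_or_nonempty {d : ℕ | ∃ s : Fin d → I, Indep i (fun j => y (τ (s j)))}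
    with h | h
  · rw [h, csSup_empty]
    exact Nat.zero_le _
  · exact csSup_le_csSup (bdd_td i y) h fun d ⟨s, hs⟩ => ⟨fun j => τ (s j), hs⟩

end

/-- evaluation of polynomials with integer coefficients -/
theorem eval₂_map_int {F K : Type} [CommRing F] [Field K] (i : F →+* K) {I : Type} (z : I → K)
    (S : MvPolynomial I ℤ) : eval₂ i z (map (Int.castRingHom F) S) =
      eval₂ (Int.castRingHom K) z S := by
  rw [eval₂_map]
  congr 1
  exact RingHom.ext_int _ _

theorem eval₂_prod' {F K : Type} [CommRing F] [Field K] (i : F →+* K) {I κ : Type} (z : I → K)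
    (s : Finset κ) (f : κ → MvPolynomial I F) :
    eval₂ i z (∏ j ∈ s, f j) = ∏ j ∈ s, eval₂ i z (f j) := map_prod (eval₂Hom i z) f s

end Pool.Agent.Helper9K9.ZU
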