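import Pool.Agent.Helper9K9.ZU.Stm

/-!
[CHAIN] the tuple of the nonzero partial sums of the equations.
-/

set_option autoImplicit false

open MvPolynomial

namespace Pool.Agent.Helper9K9.ZU

namespace Chain

variable {I : Type}

/-- signed monomials -/
def Sg (t : MvPolynomial I ℤ) : Prop :=
  ∃ (m : I →₀ ℕ) (e : ℤ), (e = 1 ∨ e = -1) ∧ t = monomial m e

/-- finite sets of polynomials in which every element is reached by adding signed monomials -/
def Good (T : Finset (MvPolynomial I ℤ)) : Prop :=
  ∀ P : MvPolynomial I ℤ → Prop, P 0 → (∀ t ∈ T, Sg t → P t) →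
    (∀ g ∈ T, ∀ t ∈ T, Sg t → g + t ∈ T → P g → P t → P (g + t)) → ∀ f ∈ T, P f

open Classical in
theorem good_union {T T' : Finset (MvPolynomial I ℤ)} (h : Good T) (h' : Good T') :
    Good (T ∪ T') := by
  intro P h0 h1 h2 f hf
  rcases Finset.mem_union.1 hf with hf | hf
  · exact h P h0 (fun t ht => h1 t (Finset.mem_union_left _ ht))
      (fun g hg t ht hs hgt => h2 g (Finset.mem_union_left _ hg) t (Finset.mem_union_left _ ht) hs
        (Finset.mem_union_left _ hgt)) f hf
  · exact h' P h0 (fun t ht => h1 t (Finset.mem_union_right _ ht))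
      (fun g hg t ht hs hgt => h2 g (Finset.mem_union_right _ hg) t (Finset.mem_union_right _ ht) hs
        (Finset.mem_union_right _ hgt)) f hf

open Classical in
theorem good_add {T : Finset (MvPolynomial I ℤ)} (h : Good T) {f t : MvPolynomial I ℤ}
    (hf : f ∈ T) (ht : Sg t) : Good (insert t (insert (f + t) T)) := by
  intro P h0 h1 h2
  have hT : ∀ g ∈ T, g ∈ insert t (insert (f + t) T) := fun g hg =>
    Finset.mem_insert_of_mem (Finset.mem_insert_of_mem hg)
  have h3 : ∀ g ∈ T, P g := h P h0 (fun t ht => h1 t (hT t ht))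
    (fun g hg t ht hs hgt => h2 g (hT g hg) t (hT t ht) hs (hT _ hgt))
  have h4 : P t := h1 t (Finset.mem_insert_self _ _) ht
  intro g hg
  rcases Finset.mem_insert.1 hg with rfl | hg
  · exact h4
  · rcases Finset.mem_insert.1 hg with rfl | hg
    · exact h2 f (hT f hf) t (Finset.mem_insert_self _ _) ht
        (Finset.mem_insert_of_mem (Finset.mem_insert_self _ _)) (h3 f hf) h4
    · exact h3 g hg

/-- elements of good sets -/
def Reach (f : MvPolynomial I ℤ) : Prop := ∃ T : Finset (MvPolynomial I ℤ), Good T ∧ f ∈ T

theorem reach_zero : Reach (0 : MvPolynomial I ℤ) :=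
  ⟨{0}, fun P h0 _ _ f hf => by rw [Finset.mem_singleton.1 hf]; exact h0,
    Finset.mem_singleton_self _⟩

theorem reach_add {f t : MvPolynomial I ℤ} (hf : Reach f) (ht : Sg t) : Reach (f + t) := by
  classical
  obtain ⟨T, h1, h2⟩ := hf
  exact ⟨_, good_add h1 h2 ht, Finset.mem_insert_of_mem (Finset.mem_insert_self _ _)⟩

theorem reach_monomial {f : MvPolynomial I ℤ} (hf : Reach f) (m : I →₀ ℕ) (b : ℤ) :
    Reach (f + monomial m b) := by
  induction b using Int.induction_on with
  | zero => rw [monomial_zero, add_zero]; exact hf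
  | succ i hi =>
    rw [map_add, ← add_assoc]
    exact reach_add hi ⟨m, 1, Or.inl rfl, rfl⟩
  | pred i hi =>
    rw [sub_eq_add_neg, map_add, ← add_assoc]
    exact reach_add hi ⟨m, -1, Or.inr rfl, rfl⟩

theorem reach (f : MvPolynomial I ℤ) : Reach f := by
  induction f using MvPolynomial.monomial_add_induction_on with
  | C a =>
    have h := reach_monomial (reach_zero (I := I)) 0 a
    rw [zero_add] at h
    exact h
  | monomial_add a b f _ _ hf =>
    rw [add_comm]
    exact reach_monomial hf a b

theorem exists_good (G : Finset (MvPolynomial I ℤ)) :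
    ∃ T : Finset (MvPolynomial I ℤ), Good T ∧ G ⊆ T := by
  classical
  induction G using Finset.induction_on with
  | empty => exact ⟨∅, fun _ _ _ _ f hf => absurd hf (Finset.notMem_empty f), Finset.Subset.refl _⟩
  | insert a G _ ih =>
    obtain ⟨T, h1, h2⟩ := ih
    obtain ⟨T', h3, h4⟩ := reach a
    refine ⟨T ∪ T', good_union h1 h3, ?_⟩
    intro g hg
    rcases Finset.mem_insert.1 hg with rfl | hg
    · exact Finset.mem_union_right _ h4
    · exact Finset.mem_union_left _ (h2 hg)

section

variable {K : Type} [Field K] {N : ℕ} (γ : Fin N → Kˣ)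

theorem mon_pair (n n' : Fin N) : mon γ (Pi.single n 1 - Pi.single n' 1) = γ n / γ n' := by
  rw [mon_sub, mon_single, mon_single, zpow_one, zpow_one]

theorem sum_pair (v : Fin N → K) (n n' : Fin N) :
    ∑ i, (((Pi.single n 1 - Pi.single n' 1 : Fin N → ℤ) i : ℤ) : K) * v i = v n - v n' := by
  simp only [Pi.sub_apply, Int.cast_sub, sub_mul, Finset.sum_sub_distrib]
  congr 1
  · rw [Finset.sum_eq_single n]
    · rw [Pi.single_eq_same, Int.cast_one, one_mul]
    · intro b _ hb
      rw [Pi.single_eq_of_ne hb, Int.cast_zero, zero_mul]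
    · intro h; exact absurd (Finset.mem_univ _) h
  · rw [Finset.sum_eq_single n']
    · rw [Pi.single_eq_same, Int.cast_one, one_mul]
    · intro b _ hb
      rw [Pi.single_eq_of_ne hb, Int.cast_zero, zero_mul]
    · intro h; exact absurd (Finset.mem_univ _) h

/-- two generators which agree up to a root of unity -/
theorem eq_of_torsion {v : Fin N → K} (hv : v ∈ lam γ) {n n' : Fin N} (m : ℕ) (hm : 0 < m)
    (h : (γ n / γ n') ^ m = 1) : v n = v n' := by
  have h1 := hv.1 (Pi.single n 1 - Pi.single n' 1) ⟨m, hm, by rw [mon_pair]; exact h⟩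
  rw [sum_pair] at h1
  exact sub_eq_zero.1 h1

theorem gate {v : Fin N → K} (hv : v ∈ lam γ) {n₁ n₂ n : Fin N}
    (h : (γ n₁ : K) + γ n₂ = γ n) : (γ n₁ : K) * v n₁ + γ n₂ * v n₂ = γ n * v n := by
  have h0 : (γ n : K) ≠ 0 := (γ n).ne_zero
  have h2 := hv.2 (Pi.single n₁ 1 - Pi.single n 1) (Pi.single n₂ 1 - Pi.single n 1) (by
    rw [mon_pair, mon_pair, Units.val_div_eq_div_val, Units.val_div_eq_div_val, ← add_div, h,
      div_self h0])
  rw [mon_pair, mon_pair, sum_pair, sum_pair, Units.val_div_eq_div_val,
    Units.val_div_eq_div_val] at h2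
  have h3 : (γ n : K) * ((γ n₁ : K) / γ n * (v n₁ - v n) + (γ n₂ : K) / γ n * (v n₂ - v n)) = 0 := by
    rw [h2, mul_zero]
  have h4 : (γ n : K) * ((γ n₁ : K) / γ n * (v n₁ - v n) + (γ n₂ : K) / γ n * (v n₂ - v n))
      = (γ n₁ : K) * (v n₁ - v n) + γ n₂ * (v n₂ - v n) := by
    field_simp
  rw [h4] at h3
  have h5 : (γ n₁ : K) * v n₁ + γ n₂ * v n₂ = ((γ n₁ : K) + γ n₂) * v n := by
    linear_combination h3
  rw [h5, h]

end

/-- the value of the derivation -/
noncomputable def dv {K : Type} [Field K] [Fintype I] (z : I → Kˣ) (w : I → K)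
    (f : MvPolynomial I ℤ) : K :=
  ∑ j, w j * eval₂ (Int.castRingHom K) (vl z) (pderiv j f)

theorem dv_add {K : Type} [Field K] [Fintype I] (z : I → Kˣ) (w : I → K)
    (f g : MvPolynomial I ℤ) : dv z w (f + g) = dv z w f + dv z w g := by
  simp only [dv, map_add, eval₂_add, mul_add, Finset.sum_add_distrib]

theorem dv_zero {K : Type} [Field K] [Fintype I] (z : I → Kˣ) (w : I → K) :
    dv z w 0 = 0 := by
  simp [dv]

theorem dv_mul {K : Type} [Field K] [Fintype I] (z : I → Kˣ) (w : I → K)
    (f g : MvPolynomial I ℤ) (hg : eval₂ (Int.castRingHom K) (vl z) g = 0) (h : dv z w g = 0) :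
    dv z w (f * g) = 0 := by
  have h1 : dv z w (f * g) = eval₂ (Int.castRingHom K) (vl z) f * dv z w g
      + eval₂ (Int.castRingHom K) (vl z) g * dv z w f := by
    simp only [dv, Derivation.leibniz, smul_eq_mul, eval₂_add, eval₂_mul, mul_add,
      Finset.sum_add_distrib, Finset.mul_sum]
    congr 1 <;> exact Finset.sum_congr rfl fun j _ => by ring
  rw [h1, h, hg, mul_zero, zero_mul, add_zero]

theorem eval_mono {K : Type} [Field K] [Fintype I] (z : I → Kˣ) (m : I →₀ ℕ) (e : ℤ) :
    eval₂ (Int.castRingHom K) (vl z) (monomial m e) = (e : K) * ∏ j, (z j : K) ^ m j := by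
  rw [eval₂_monomial, Finsupp.prod_fintype _ _ (fun i => pow_zero _)]
  rfl

theorem dv_monomial {K : Type} [Field K] [Fintype I] (z : I → Kˣ) (v : I → K) (m : I →₀ ℕ)
    (e : ℤ) : dv z (fun j => (z j : K) * v j) (monomial m e)
      = eval₂ (Int.castRingHom K) (vl z) (monomial m e) * ∑ j, (m j : K) * v j := by
  classical
  rw [dv, Finset.mul_sum]
  refine Finset.sum_congr rfl fun j _ => ?_
  rw [pderiv_monomial, eval_mono, eval_mono]
  by_cases hm : m j = 0
  · rw [hm]; simp
  · have h1 : ∏ i, (z i : K) ^ m i = (z j : K) * ∏ i, (z i : K) ^ (m - Finsupp.single j 1 : I →₀ ℕ) i := by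
      rw [← Finset.mul_prod_erase Finset.univ _ (Finset.mem_univ j),
        ← Finset.mul_prod_erase Finset.univ (fun i => (z i : K) ^ (m - Finsupp.single j 1 : I →₀ ℕ) i)
          (Finset.mem_univ j), ← mul_assoc]
      congr 1
      · rw [Finsupp.tsub_apply, Finsupp.single_eq_same, ← pow_succ']
        congr 1
        omega
      · refine Finset.prod_congr rfl fun i hi => ?_
        rw [Finsupp.tsub_apply, Finsupp.single_eq_of_ne (Finset.ne_of_mem_erase hi), Nat.sub_zero]
    rw [h1]
    push_cast
    ring

end Chain

open Chain in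
theorem chain : S_CHAIN := by
  classical
  intro K _ _ I _ z
  -- generators of the ideal
  let ev : MvPolynomial I ℤ →+* K := eval₂Hom (Int.castRingHom K) (vl z)
  have hev : ∀ f, ev f = eval₂ (Int.castRingHom K) (vl z) f := fun f => rfl
  obtain ⟨G, hG⟩ : (RingHom.ker ev).FG := IsNoetherian.noetherian _
  obtain ⟨T, hT, hGT⟩ := exists_good (G ∪ Finset.univ.image (fun j : I => (X j : MvPolynomial I ℤ)))
  have hXT : ∀ j : I, (X j : MvPolynomial I ℤ) ∈ T := fun j =>
    hGT (Finset.mem_union_right _ (Finset.mem_image_of_mem _ (Finset.mem_univ j)))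
  have hGT' : ∀ g ∈ G, g ∈ T := fun g hg => hGT (Finset.mem_union_left _ hg)
  have hzX : ∀ j : I, ev (X j) = z j := fun j => by rw [hev, eval₂_X]; rfl
  let T' : Finset (MvPolynomial I ℤ) := T.filter (fun f => ev f ≠ 0)
  let en : Fin T'.card ≃ T' := T'.equivFin.symm
  let γ : Fin T'.card → Kˣ := fun n => Units.mk0 (ev (en n : MvPolynomial I ℤ))
    (Finset.mem_filter.1 (en n).2).2
  have hX' : ∀ j : I, (X j : MvPolynomial I ℤ) ∈ T' := fun j =>
    Finset.mem_filter.2 ⟨hXT j, by rw [hzX]; exact (z j).ne_zero⟩
  let τ : I → Fin T'.card := fun j => en.symm ⟨X j, hX' j⟩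
  have hγ : ∀ n, (γ n : K) = ev (en n : MvPolynomial I ℤ) := fun n => rfl
  have hγs : ∀ (f : MvPolynomial I ℤ) (hf : f ∈ T'), (γ (en.symm ⟨f, hf⟩) : K) = ev f :=
    fun f hf => by rw [hγ, Equiv.apply_symm_apply]
  refine ⟨T'.card, γ, fun n => (en n : MvPolynomial I ℤ), τ, ?_, ?_, fun n => rfl, ?_⟩
  · intro i j hij
    have h1 := congrArg (fun n => ((en n : T') : MvPolynomial I ℤ)) hij
    simp only [τ, Equiv.apply_symm_apply] at h1
    exact X_injective h1
  · intro j
    simp only [τ, Equiv.apply_symm_apply]
  · -- the value of the derivation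
    have key : ∀ v ∈ lam γ, ∀ f ∈ T,
        (∀ hf : f ∈ T', dv z (fun j => (z j : K) * v (τ j)) f = ev f * v (en.symm ⟨f, hf⟩)) ∧
        (ev f = 0 → dv z (fun j => (z j : K) * v (τ j)) f = 0) := by
      intro v hv
      refine hT _ ?_ ?_ ?_
      · exact ⟨fun hf => absurd (map_zero ev) (Finset.mem_filter.1 hf).2, fun _ => dv_zero _ _⟩
      · rintro t ht ⟨m, e, he, rfl⟩
        have hne : ev (monomial m e) ≠ 0 := by
          rw [hev, eval_mono]
          refine mul_ne_zero ?_ (Finset.prod_ne_zero_iff.2 fun j _ => pow_ne_zero _ (z j).ne_zero)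
          rcases he with rfl | rfl <;> simp
        refine ⟨fun hf => ?_, fun h => absurd h hne⟩
        rw [dv_monomial z (fun j => v (τ j))]
        rw [← hev]
        congr 1
        -- the relation
        have h1 := hv.1 (Pi.single (en.symm ⟨monomial m e, hf⟩) 1
          - ∑ j, (m j : ℤ) • (Pi.single (τ j) 1 : Fin T'.card → ℤ)) ?_
        · simp only [Pi.sub_apply, Int.cast_sub, sub_mul, Finset.sum_sub_distrib] at h1
          have h2 : ∀ n : Fin T'.card,
              ∑ i, ((Pi.single n 1 : Fin T'.card → ℤ) i : K) * v i = v n := by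
            intro n
            rw [Finset.sum_eq_single n]
            · rw [Pi.single_eq_same, Int.cast_one, one_mul]
            · intro b _ hb
              rw [Pi.single_eq_of_ne hb, Int.cast_zero, zero_mul]
            · intro h; exact absurd (Finset.mem_univ _) h
          rw [h2, sub_eq_zero] at h1
          rw [h1]
          simp only [Finset.sum_apply, Pi.smul_apply, smul_eq_mul, Int.cast_sum, Int.cast_mul,
            Int.cast_natCast, Finset.sum_mul]
          rw [Finset.sum_comm]
          refine Finset.sum_congr rfl fun j _ => ?_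
          simp only [mul_assoc]
          rw [← Finset.mul_sum, h2]
        · refine ⟨2, two_pos, ?_⟩
          have h3 : ∀ (s : Finset I), mon γ (∑ j ∈ s, (m j : ℤ) • (Pi.single (τ j) 1 : Fin T'.card → ℤ))
              = ∏ j ∈ s, z j ^ m j := by
            intro s
            induction s using Finset.induction_on with
            | empty => rw [Finset.sum_empty, mon_zero, Finset.prod_empty]
            | insert a s ha ih =>
              rw [Finset.sum_insert ha, Finset.prod_insert ha, mon_add, ih, mon_zsmul, mon_single,
                zpow_one, zpow_natCast]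
              congr 2
              apply Units.ext
              exact (hγs _ (hX' a)).trans (hzX a)
          rw [mon_sub, mon_single, zpow_one, h3]
          apply Units.ext
          rw [Units.val_pow_eq_pow_val, Units.val_div_eq_div_val, Units.coe_prod, hγs, hev,
            eval_mono]
          simp only [Units.val_pow_eq_pow_val]
          rw [mul_div_assoc, div_self (Finset.prod_ne_zero_iff.2 fun j _ =>
            pow_ne_zero _ (z j).ne_zero), mul_one]
          rcases he with rfl | rfl <;> simp
      · intro g hg t ht hts hgt hPg hPt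
        have hadd : ev (g + t) = ev g + ev t := map_add ev g t
        have htne : ev t ≠ 0 := by
          obtain ⟨m, e, he, rfl⟩ := hts
          rw [hev, eval_mono]
          refine mul_ne_zero ?_ (Finset.prod_ne_zero_iff.2 fun j _ => pow_ne_zero _ (z j).ne_zero)
          rcases he with rfl | rfl <;> simp
        have htT : t ∈ T' := Finset.mem_filter.2 ⟨ht, htne⟩
        by_cases hg0 : ev g = 0
        · refine ⟨fun hf => ?_, fun h => ?_⟩
          · rw [dv_add, hPg.2 hg0, zero_add, hPt.1 htT, hadd, hg0, zero_add]
            congr 1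
            refine eq_of_torsion γ hv 1 one_pos ?_
            rw [pow_one]
            apply Units.ext
            rw [Units.val_div_eq_div_val, hγs, hγs, hadd, hg0, zero_add, div_self htne,
              Units.val_one]
          · rw [hadd, hg0, zero_add] at h
            exact absurd h htne
        · have hgT : g ∈ T' := Finset.mem_filter.2 ⟨hg, hg0⟩
          refine ⟨fun hf => ?_, fun h => ?_⟩
          · rw [dv_add, hPg.1 hgT, hPt.1 htT]
            have h5 := gate γ hv (n₁ := en.symm ⟨g, hgT⟩) (n₂ := en.symm ⟨t, htT⟩)
              (n := en.symm ⟨g + t, hf⟩) (by rw [hγs, hγs, hγs, hadd])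
            rw [hγs, hγs, hγs] at h5
            exact h5
          · rw [dv_add, hPg.1 hgT, hPt.1 htT]
            have h6 : ev t = - ev g := by
              rw [hadd] at h
              linear_combination h
            have h7 : v (en.symm ⟨g, hgT⟩) = v (en.symm ⟨t, htT⟩) := by
              refine eq_of_torsion γ hv 2 two_pos ?_
              apply Units.ext
              rw [Units.val_pow_eq_pow_val, Units.val_div_eq_div_val, hγs, hγs, h6, div_neg,
                div_self hg0, Units.val_one]
              norm_num
            rw [h7, h6]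
            ring
    -- the linear map
    let Φ : lam γ →ₗ[K] tan z :=
      { toFun := fun v => ⟨fun j => (z j : K) * (v : Fin T'.card → K) (τ j), by
          intro f hf
          change dv z _ f = 0
          have h1 : f ∈ Ideal.span (G : Set (MvPolynomial I ℤ)) := by
            rw [hG]
            exact hf
          have h2 : ev f = 0 ∧
              dv z (fun j => (z j : K) * (v : Fin T'.card → K) (τ j)) f = 0 := by
            induction h1 using Submodule.span_induction with
            | mem g hg =>
              have h3 : ev g = 0 := by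
                have h4 : g ∈ RingHom.ker ev := by rw [← hG]; exact Ideal.subset_span hg
                exact h4
              exact ⟨h3, (key v v.2 g (hGT' g hg)).2 h3⟩
            | zero => exact ⟨map_zero ev, dv_zero _ _⟩
            | add f g hf' hg' h3 h4 =>
              have hf0 : eval₂ (Int.castRingHom K) (vl z) f = 0 := by
                have : f ∈ RingHom.ker ev := by rw [← hG]; exact hf'
                exact this
              have hg0 : eval₂ (Int.castRingHom K) (vl z) g = 0 := by
                have : g ∈ RingHom.ker ev := by rw [← hG]; exact hg'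
                exact this
              exact ⟨by rw [map_add, (h3 hf0).1, (h4 hg0).1, add_zero],
                by rw [dv_add, (h3 hf0).2, (h4 hg0).2, add_zero]⟩
            | smul a g hg' h3 =>
              have hg0 : eval₂ (Int.castRingHom K) (vl z) g = 0 := by
                have : g ∈ RingHom.ker ev := by rw [← hG]; exact hg'
                exact this
              exact ⟨by rw [smul_eq_mul, map_mul, (h3 hg0).1, mul_zero],
                by rw [smul_eq_mul]; exact dv_mul z _ a g hg0 (h3 hg0).2⟩
          exact h2.2⟩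
        map_add' := fun v w => by
          apply Subtype.ext
          funext j
          change (z j : K) * ((v : Fin T'.card → K) (τ j) + (w : Fin T'.card → K) (τ j)) = _
          rw [mul_add]
          rfl
        map_smul' := fun c v => by
          apply Subtype.ext
          funext j
          change (z j : K) * (c * (v : Fin T'.card → K) (τ j))
            = c * ((z j : K) * (v : Fin T'.card → K) (τ j))
          ring }
    refine LinearMap.finrank_le_finrank_of_injective (f := Φ) ?_
    rw [← LinearMap.ker_eq_bot, LinearMap.ker_eq_bot']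
    intro v hv
    have h1 : ∀ j : I, (z j : K) * (v : Fin T'.card → K) (τ j) = 0 := fun j =>
      congrFun (congrArg Subtype.val hv) j
    apply Subtype.ext
    funext n
    have h2 := (key v v.2 (en n) (Finset.mem_filter.1 (en n).2).1).1 (en n).2
    have h3 : dv z (fun j => (z j : K) * (v : Fin T'.card → K) (τ j)) (en n : MvPolynomial I ℤ)
        = 0 := by
      unfold dv
      exact Finset.sum_eq_zero fun j _ => mul_eq_zero_of_left (h1 j) _
    rw [h3] at h2
    have h4 := (mul_eq_zero.1 h2.symm).resolve_left (Finset.mem_filter.1 (en n).2).2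
    have h5 : en.symm ⟨(en n : MvPolynomial I ℤ), (en n).2⟩ = n := by
      rw [Subtype.coe_eta, Equiv.symm_apply_apply]
    rw [h5] at h4
    exact h4

end Pool.Agent.Helper9K9.ZU
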