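import Pool.Agent.Helper9K9.ZU.Loc

/-!
[COMP] components of closed subsets of the torus.
-/

set_option autoImplicit false

open MvPolynomial

namespace Pool.Agent.Helper9K9.ZU

open LocL

namespace CompL

variable {ι : Type}

theorem zeros_span (S : Set (MvPolynomial ι ℂ)) :
    zeros (Ideal.span S : Set (MvPolynomial ι ℂ)) = zeros S := by
  apply Set.Subset.antisymm
  · exact zeros_anti Ideal.subset_span
  · rintro x ⟨hx, h⟩
    refine ⟨hx, fun f hf => ?_⟩
    have : Ideal.span S ≤ RingHom.ker (eval x : MvPolynomial ι ℂ →+* ℂ) :=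
      Ideal.span_le.2 fun g hg => h g hg
    exact this hf

theorem span_le_idealOf {S : Set (MvPolynomial ι ℂ)} {A : Set (ι → ℂ)} (h : A ⊆ zeros S) :
    Ideal.span S ≤ idealOf A :=
  Ideal.span_le.2 fun _ hg => mem_idealOf.2 fun x hx => (h hx).2 _ hg

/-- an irreducible subset is contained in the zeros of a minimal prime, which are a component -/
theorem exists_comp [Fintype ι] (S : Set (MvPolynomial ι ℂ)) (A : Set (ι → ℂ)) (hA : IsIrr A)
    (hAS : A ⊆ zeros S) : ∃ P ∈ (Ideal.span S).minimalPrimes,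
      A ⊆ zeros (P : Set (MvPolynomial ι ℂ)) ∧
      IsComponent (zeros (P : Set (MvPolynomial ι ℂ))) (zeros S) := by
  haveI : (idealOf A).IsPrime := hA.2
  obtain ⟨P, hP, hPA⟩ := Ideal.exists_minimalPrimes_le (span_le_idealOf hAS)
  have hPp : P.IsPrime := hP.1.1
  have hX : ∀ j, X j ∉ P := fun j h => X_notMem hA j (hPA h)
  refine ⟨P, hP, ?_, isIrr_zeros P hX, ?_, ?_⟩
  · rw [← zeros_idealOf' hA.1]
    exact zeros_anti hPA
  · rw [← zeros_span S]
    exact zeros_anti hP.1.2
  · intro B hB h1 h2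
    have h3 : idealOf B ≤ P := by
      have := idealOf_anti h1
      rwa [idealOf_zeros P hX] at this
    have h4 : Ideal.span S ≤ idealOf B := span_le_idealOf h2
    have h5 : P ≤ idealOf B := hP.2 ⟨hB.2, h4⟩ h3
    rw [← zeros_idealOf' hB.1, le_antisymm h3 h5]

end CompL

open CompL

theorem comp : S_COMP := by
  intro ι _ S
  refine ⟨?_, fun A hA hAS => ?_⟩
  · apply Set.Finite.subset
      ((Ideal.finite_minimalPrimes_of_isNoetherianRing (MvPolynomial ι ℂ) (Ideal.span S)).image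
        fun P : Ideal (MvPolynomial ι ℂ) => zeros (P : Set (MvPolynomial ι ℂ)))
    rintro B ⟨hB, hBS, hmax⟩
    obtain ⟨P, hP, h1, h2⟩ := exists_comp S B hB hBS
    exact ⟨P, hP, hmax _ h2.1 h1 h2.2.1⟩
  · obtain ⟨P, hP, h1, h2⟩ := exists_comp S A hA hAS
    exact ⟨_, h2, h1⟩

end Pool.Agent.Helper9K9.ZU
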