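import Pool.Agent.Helper9K9.ZU.Basic

/-!
Assembly: the main property for tuples whose relations come from the integers.
-/

set_option autoImplicit false

open MvPolynomial

namespace Pool.Agent.Helper9K9.ZU

theorem core (spec : S_SPEC) (mono : S_MONO) (jac : S_JAC) (tn : S_TAN) (chain : S_CHAIN)
    (pick : S_PICK) (den : S_DEN) : S_CORE := by
  intro F _ _ hyp K _ i I _ z htd
  have hK : CharZero K := charZero_of_injective_ringHom i.injective
  obtain ⟨N, γ, S, τ, hτ, hSτ, hγ, hlam⟩ := chain K I z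
  obtain ⟨k, α, hon, hrk, hfree⟩ := pick K N γ
  have hk : rk γ ≤ k + td i (vl z) := by
    have h1 := tn K I z
    omega
  obtain ⟨s, Q, hQ1, hQ2⟩ := hyp k
  -- the ideals are not contained in the ideal of the gate point
  have hP : ∀ j, ∃ P ∈ Q j, eval₂ i (vl fun p => mon γ (α p)) P ≠ 0 := by
    intro j
    by_contra hcon
    push Not at hcon
    obtain ⟨L, _, l, y, hy, hlt, hgen⟩ := hQ1 j
    have h1 := jac F L K l i k y (fun p => mon γ (α p))
      (fun f hf => hcon f ((hgen f).2 hf)) hy hfree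
    omega
  choose P hPQ hP0 using hP
  choose H hH using fun j => den F I (Fin k × Fin 2) N S α (P j)
  refine ⟨(∏ n, map (Int.castRingHom F) (S n)) * ∏ j, H j, ?_, ?_⟩
  · rw [eval₂_mul, eval₂_prod', eval₂_prod']
    refine mul_ne_zero (Finset.prod_ne_zero_iff.2 fun n _ => ?_)
      (Finset.prod_ne_zero_iff.2 fun j _ => ?_)
    · rw [eval₂_map_int, ← hγ n]
      exact (γ n).ne_zero
    · intro h0
      exact hP0 j ((hH j K i (vl z) γ hγ).1 h0)
  · intro K' _ i' ζ hspz hlt
    by_contra hcon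
    rw [eval₂_mul, eval₂_prod', eval₂_prod'] at hcon
    have hS : ∀ n, eval₂ (Int.castRingHom K') (vl ζ) (S n) ≠ 0 := by
      intro n h0
      apply hcon
      rw [Finset.prod_eq_zero (Finset.mem_univ n) (by rw [eval₂_map_int, h0]), zero_mul]
    have hHj : ∀ j, eval₂ i' (vl ζ) (H j) ≠ 0 := by
      intro j h0
      apply hcon
      rw [Finset.prod_eq_zero (Finset.mem_univ j) h0, mul_zero]
    obtain ⟨γ', hγ'⟩ : ∃ γ' : Fin N → K'ˣ,
        ∀ n, (γ' n : K') = eval₂ (Int.castRingHom K') (vl ζ) (S n) :=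
      ⟨fun n => Units.mk0 _ (hS n), fun n => rfl⟩
    have hz : (fun j => γ (τ j)) = z := by
      funext j
      apply Units.ext
      rw [hγ, hSτ, eval₂_X]
      rfl
    have hζ : (fun j => γ' (τ j)) = ζ := by
      funext j
      apply Units.ext
      rw [hγ', hSτ, eval₂_X]
      rfl
    have hrel : rel γ ≤ rel γ' := by
      rintro a ⟨m, hm, ha⟩
      refine ⟨m, hm, ?_⟩
      obtain ⟨G, hG⟩ := den F I Unit N S (fun _ => a) (X () ^ m - 1)
      have h1 : eval₂ i (vl fun _ : Unit => mon γ a) (X () ^ m - 1 : MvPolynomial Unit F) = 0 := by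
        rw [eval₂_sub, eval₂_pow, eval₂_X, eval₂_one, vl, ← Units.val_pow_eq_pow_val, ha,
          Units.val_one, sub_self]
      have h2 := (hG K' i' (vl ζ) γ' hγ').1 (hspz G ((hG K i (vl z) γ hγ).2 h1))
      rw [eval₂_sub, eval₂_pow, eval₂_X, eval₂_one, vl, ← Units.val_pow_eq_pow_val] at h2
      exact Units.ext (by rw [Units.val_one]; exact sub_eq_zero.1 h2)
    have hon' : OnL (fun p => mon γ' (α p)) := by
      intro g
      obtain ⟨G, hG⟩ := den F I (Fin k × Fin 2) N S α (X (g, 0) + X (g, 1) - 1)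
      have h1 : eval₂ i (vl fun p => mon γ (α p))
          (X (g, 0) + X (g, 1) - 1 : MvPolynomial (Fin k × Fin 2) F) = 0 := by
        rw [eval₂_sub, eval₂_add, eval₂_X, eval₂_X, eval₂_one, sub_eq_zero]
        exact hon g
      have h2 := (hG K' i' (vl ζ) γ' hγ').1 (hspz G ((hG K i (vl z) γ hγ).2 h1))
      rw [eval₂_sub, eval₂_add, eval₂_X, eval₂_X, eval₂_one, sub_eq_zero] at h2
      exact h2
    have h1 := mono F K' i' (Fin N) (Fin k × Fin 2) γ' α
    have h2 := spec K K' I (Fin N) γ γ' τ hτ hrel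
    rw [hz, hζ] at h2
    have h3 : td i' (vl ζ) ≤ td i' (vl γ') := by
      rw [← hζ]
      exact td_comp_le i' (vl γ') τ
    obtain ⟨j, hj⟩ := hQ2 K' i' (fun p => mon γ' (α p)) hon' (by omega)
    exact hHj j ((hH j K' i' (vl ζ) γ' hγ').2 (hj _ (hPQ j)))

end Pool.Agent.Helper9K9.ZU
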