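import Pool.Agent.Helper9K9.ZU.GeoBasic

/-!
[COS] cosets are closed.
-/

set_option autoImplicit false

open MvPolynomial

namespace Pool.Agent.Helper9K9.ZU

theorem prod_zpow_split {ι : Type} [Fintype ι] (x : ι → ℂ) (hx : ∀ j, x j ≠ 0) (a : ι → ℤ) :
    ∏ j, x j ^ a j = (∏ j, x j ^ (a j).toNat) / ∏ j, x j ^ (-a j).toNat := by
  rw [← Finset.prod_div_distrib]
  refine Finset.prod_congr rfl fun j _ => ?_
  rw [← zpow_natCast, ← zpow_natCast, ← zpow_sub₀ (hx j)]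
  congr 1
  omega

theorem cos : S_COS := by
  intro ι _ M η hη
  refine ⟨{f | ∃ a ∈ M, f = (∏ j, X j ^ (a j).toNat) * C (∏ j, η j ^ (-a j).toNat) -
    (∏ j, X j ^ (-a j).toNat) * C (∏ j, η j ^ (a j).toNat)}, ?_⟩
  ext x
  refine and_congr_right fun hx => ?_
  have key : ∀ a : ι → ℤ, ∏ j, x j ^ a j = ∏ j, η j ^ a j ↔
      eval x ((∏ j, X j ^ (a j).toNat) * C (∏ j, η j ^ (-a j).toNat) -
        (∏ j, X j ^ (-a j).toNat) * C (∏ j, η j ^ (a j).toNat)) = 0 := by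
    intro a
    have h1 : ∏ j, x j ^ (-a j).toNat ≠ 0 := Finset.prod_ne_zero_iff.2 fun j _ => pow_ne_zero _ (hx j)
    have h2 : ∏ j, η j ^ (-a j).toNat ≠ 0 := Finset.prod_ne_zero_iff.2 fun j _ => pow_ne_zero _ (hη j)
    rw [prod_zpow_split x hx, prod_zpow_split η hη, div_eq_div_iff h1 h2, map_sub, map_mul, map_mul,
      eval_C, eval_C, sub_eq_zero, map_prod, map_prod]
    simp only [map_pow, eval_X]
    constructor
    · intro h
      rw [h, mul_comm]
    · intro h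
      rw [h, mul_comm]
  constructor
  · rintro h _ ⟨a, ha, rfl⟩
    exact (key a).1 (h a ha)
  · intro h a ha
    exact (key a).2 (h _ ⟨a, ha, rfl⟩)

end Pool.Agent.Helper9K9.ZU
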