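import Mathlib

/-!
# Universality of the powers of the line `x + y = 1`: basic notions

Tuples of nonzero elements of fields: relations modulo torsion, rank, transcendence degree.
-/

set_option autoImplicit false

open MvPolynomial

namespace Pool.Agent.Helper9K9.ZU

/-- the monomial `∏ γ_i ^ (a_i)` -/
def mon {K : Type} [Field K] {I : Type} [Fintype I] (γ : I → Kˣ) (a : I → ℤ) : Kˣ :=
  ∏ i, γ i ^ a i

section
variable {K : Type} [Field K] {I : Type} [Fintype I] (γ : I → Kˣ)

theorem mon_add (a b : I → ℤ) : mon γ (a + b) = mon γ a * mon γ b := by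
  unfold mon
  rw [← Finset.prod_mul_distrib]
  exact Finset.prod_congr rfl fun i _ => by rw [Pi.add_apply, zpow_add]

theorem mon_zero : mon γ 0 = 1 := by
  unfold mon
  exact Finset.prod_eq_one fun i _ => by rw [Pi.zero_apply, zpow_zero]

theorem mon_zsmul (n : ℤ) (a : I → ℤ) : mon γ (n • a) = mon γ a ^ n := by
  unfold mon
  rw [← Finset.prod_zpow]
  exact Finset.prod_congr rfl fun i _ => by
    rw [Pi.smul_apply, smul_eq_mul, mul_comm, zpow_mul]

theorem mon_neg (a : I → ℤ) : mon γ (-a) = (mon γ a)⁻¹ := by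
  rw [← neg_one_zsmul, mon_zsmul, zpow_neg_one]

theorem mon_sub (a b : I → ℤ) : mon γ (a - b) = mon γ a / mon γ b := by
  rw [sub_eq_add_neg, mon_add, mon_neg, div_eq_mul_inv]

theorem mon_single [DecidableEq I] (i : I) (n : ℤ) : mon γ (Pi.single i n) = γ i ^ n := by
  unfold mon
  rw [Finset.prod_eq_single i]
  · rw [Pi.single_eq_same]
  · intro j _ hj
    rw [Pi.single_eq_of_ne hj, zpow_zero]
  · intro h
    exact absurd (Finset.mem_univ i) h

end

/-- the relations modulo torsion between the elements of a tuple -/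
def rel {K : Type} [Field K] {I : Type} [Fintype I] (γ : I → Kˣ) : Submodule ℤ (I → ℤ) where
  carrier := {a | ∃ m : ℕ, 0 < m ∧ mon γ a ^ m = 1}
  add_mem' := by
    rintro a b ⟨m, hm, ha⟩ ⟨n, hn, hb⟩
    refine ⟨m * n, Nat.mul_pos hm hn, ?_⟩
    rw [mon_add, mul_pow, pow_mul, ha, one_pow, mul_comm m n, pow_mul, hb, one_pow, one_mul]
  zero_mem' := ⟨1, one_pos, by rw [mon_zero, one_pow]⟩
  smul_mem' := by
    rintro n a ⟨m, hm, ha⟩
    refine ⟨m, hm, ?_⟩
    rw [mon_zsmul, ← zpow_natCast, ← zpow_mul, mul_comm n, zpow_mul, zpow_natCast, ha, one_zpow]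

theorem mem_rel {K : Type} [Field K] {I : Type} [Fintype I] {γ : I → Kˣ} {a : I → ℤ} :
    a ∈ rel γ ↔ ∃ m : ℕ, 0 < m ∧ mon γ a ^ m = 1 := Iff.rfl

/-- the rank of the multiplicative group generated by a tuple -/
noncomputable def rk {K : Type} [Field K] {I : Type} [Fintype I] (γ : I → Kˣ) : ℕ :=
  Fintype.card I - Module.finrank ℤ (rel γ)

/-- algebraic independence over the image of a ring homomorphism -/
def Indep {F K : Type} [CommRing F] [Field K] (i : F →+* K) {J : Type} (y : J → K) : Prop :=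
  ∀ f : MvPolynomial J F, eval₂ i y f = 0 → f = 0

/-- the transcendence degree of the field generated by a finite tuple over the image of `F` -/
noncomputable def td {F K : Type} [CommRing F] [Field K] (i : F →+* K) {I : Type} (y : I → K) : ℕ :=
  sSup {d : ℕ | ∃ s : Fin d → I, Indep i (fun j => y (s j))}

/-- the tuple as a tuple of elements of the field -/
def vl {K : Type} [Field K] {I : Type} (γ : I → Kˣ) : I → K := fun i => (γ i : K)

/-- a point of the `k`-th power of the line -/
def OnL {K : Type} [Field K] {k : ℕ} (y : Fin k × Fin 2 → Kˣ) : Prop :=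
  ∀ g, (y (g, 0) : K) + y (g, 1) = 1

/-- Zilber-Pink for the powers of the line in terms of points in fields: finitely many primes (of
points of small defect) so that every point of small defect satisfies the equations of one. -/
def HypL (F : Type) [Field F] : Prop :=
  ∀ k : ℕ, ∃ (s : ℕ) (Q : Fin s → Ideal (MvPolynomial (Fin k × Fin 2) F)),
    (∀ j, ∃ (K : Type) (_ : Field K) (i : F →+* K) (y : Fin k × Fin 2 → Kˣ), OnL y ∧
      rk y < td i (vl y) + k ∧ ∀ f, f ∈ Q j ↔ eval₂ i (vl y) f = 0) ∧
    ∀ (K : Type) [Field K] (i : F →+* K) (y : Fin k × Fin 2 → Kˣ), OnL y →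
      rk y < td i (vl y) + k → ∃ j, ∀ f ∈ Q j, eval₂ i (vl y) f = 0

/-- the span over `K` of the relations -/
def relK {K : Type} [Field K] {I : Type} [Fintype I] (γ : I → Kˣ) : Submodule K (I → K) :=
  Submodule.span K ((fun (a : I → ℤ) (i : I) => (a i : K)) '' (rel γ : Set (I → ℤ)))

/-- the gate vector `y_(g,0) e_(g,0) + y_(g,1) e_(g,1)` -/
def gv {K : Type} [Field K] {k : ℕ} (y : Fin k × Fin 2 → Kˣ) (g : Fin k) :
    Fin k × Fin 2 → K :=
  fun p => if p.1 = g then (y p : K) else 0

/-- the gate vectors are independent modulo the relations -/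
def Free {K : Type} [Field K] {k : ℕ} (y : Fin k × Fin 2 → Kˣ) : Prop :=
  ∀ c : Fin k → K, ∑ g, c g • gv y g ∈ relK y → c = 0

end Pool.Agent.Helper9K9.ZU
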