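import Pool.Agent.Helper9K9.ZU.Basic

/-!
[DEN] polynomials in monomials of the tuple, denominators cleared
-/

set_option autoImplicit false

open MvPolynomial

namespace Pool.Agent.Helper9K9.ZU

theorem den : S_DEN := by
  intro F _ I J _ _ N S α P
  classical
  suffices h : ∃ (H : MvPolynomial I F) (M : ℕ), ∀ (K : Type) [Field K] (i : F →+* K) (z : I → K)
      (γ : Fin N → Kˣ), (∀ n, (γ n : K) = eval₂ (Int.castRingHom K) z (S n)) →
      eval₂ i z H = (∏ n, (γ n : K)) ^ M * eval₂ i (vl fun j => mon γ (α j)) P by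
    obtain ⟨H, M, h⟩ := h
    refine ⟨H, fun K _ i z γ hγ => ?_⟩
    rw [h K i z γ hγ]
    have h1 : (∏ n, (γ n : K)) ^ M ≠ 0 :=
      pow_ne_zero _ (Finset.prod_ne_zero_iff.2 fun n _ => (γ n).ne_zero)
    constructor
    · intro h2
      exact (mul_eq_zero.1 h2).resolve_left h1
    · intro h2
      rw [h2, mul_zero]
  induction P using MvPolynomial.induction_on with
  | C a =>
    refine ⟨C a, 0, fun K _ i z γ _ => ?_⟩
    rw [eval₂_C, eval₂_C, pow_zero, one_mul]
  | add P Q hP hQ =>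
    obtain ⟨H₁, M₁, h₁⟩ := hP
    obtain ⟨H₂, M₂, h₂⟩ := hQ
    refine ⟨H₁ * (∏ n, map (Int.castRingHom F) (S n)) ^ M₂ +
      H₂ * (∏ n, map (Int.castRingHom F) (S n)) ^ M₁, M₁ + M₂, fun K _ i z γ hγ => ?_⟩
    have hD : eval₂ i z (∏ n, map (Int.castRingHom F) (S n)) = ∏ n, (γ n : K) := by
      rw [eval₂_prod']
      exact Finset.prod_congr rfl fun n _ => by rw [eval₂_map_int, hγ]
    rw [eval₂_add, eval₂_mul, eval₂_mul, eval₂_pow, eval₂_pow, hD, h₁ K i z γ hγ,
      h₂ K i z γ hγ, eval₂_add, pow_add]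
    ring
  | mul_X P j hP =>
    obtain ⟨H₁, M₁, h₁⟩ := hP
    let B : ℕ := ∑ n, (α j n).natAbs
    have hB : ∀ n, 0 ≤ (B : ℤ) + α j n := by
      intro n
      have h1 : (α j n).natAbs ≤ B :=
        Finset.single_le_sum (f := fun n => (α j n).natAbs) (fun _ _ => Nat.zero_le _)
          (Finset.mem_univ n)
      omega
    refine ⟨H₁ * ∏ n, map (Int.castRingHom F) (S n) ^ ((B : ℤ) + α j n).toNat, M₁ + B,
      fun K _ i z γ hγ => ?_⟩
    have hD : eval₂ i z (∏ n, map (Int.castRingHom F) (S n) ^ ((B : ℤ) + α j n).toNat) =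
        (∏ n, (γ n : K)) ^ B * (mon γ (α j) : K) := by
      rw [eval₂_prod']
      have h1 : ((∏ n, γ n) ^ B * mon γ (α j) : Kˣ) =
          ∏ n, γ n ^ ((B : ℤ) + α j n).toNat := by
        unfold mon
        rw [← Finset.prod_pow, ← Finset.prod_mul_distrib]
        refine Finset.prod_congr rfl fun n _ => ?_
        rw [← zpow_natCast, ← zpow_natCast, ← zpow_add, Int.toNat_of_nonneg (hB n)]
      have h2 := congrArg (Units.val : Kˣ → K) h1
      rw [Units.val_mul, Units.val_pow_eq_pow_val, Units.coe_prod, Units.coe_prod] at h2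
      rw [h2]
      refine Finset.prod_congr rfl fun n _ => ?_
      rw [eval₂_pow, eval₂_map_int, ← hγ, Units.val_pow_eq_pow_val]
    rw [eval₂_mul, hD, h₁ K i z γ hγ, eval₂_mul, eval₂_X, pow_add]
    simp only [vl]
    ring

end Pool.Agent.Helper9K9.ZU
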