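import Pool.Agent.Helper9K9.ZU.Loc

/-!
[DIM] dimension and transcendence degree, [DLT] strict monotonicity of the dimension.
-/

set_option autoImplicit false

open MvPolynomial

namespace Pool.Agent.Helper9K9.ZU

open LocL

namespace DimL

variable {ι : Type}

/-- the coordinate ring -/
abbrev CR (A : Set (ι → ℂ)) : Type := MvPolynomial ι ℂ ⧸ idealOf A

/-- the coordinate functions -/
noncomputable def cf (A : Set (ι → ℂ)) (j : ι) : CR A := Ideal.Quotient.mk (idealOf A) (X j)

theorem aeval_cf (A : Set (ι → ℂ)) {J : Type} (s : J → ι) (f : MvPolynomial J ℂ) :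
    aeval (fun j => cf A (s j)) f = Ideal.Quotient.mk (idealOf A) (rename s f) := by
  have : (aeval (fun j => cf A (s j)) : MvPolynomial J ℂ →ₐ[ℂ] CR A) =
      (Ideal.Quotient.mkₐ ℂ (idealOf A)).comp (rename s) := by
    apply MvPolynomial.algHom_ext
    intro j
    rw [aeval_X, AlgHom.comp_apply, rename_X]
    rfl
  rw [this]
  rfl

theorem adjoin_cf (A : Set (ι → ℂ)) : Algebra.adjoin ℂ (Set.range (cf A)) = ⊤ := by
  rw [eq_top_iff]
  rintro f -
  obtain ⟨g, rfl⟩ := Ideal.Quotient.mk_surjective f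
  have h := aeval_cf A id g
  rw [rename_id_apply] at h
  rw [← h, Algebra.adjoin_range_eq_range_aeval]
  exact ⟨g, rfl⟩

/-- transcendence bases among the coordinate functions -/
theorem exists_basis [Fintype ι] {A : Set (ι → ℂ)} (hp : (idealOf A).IsPrime) :
    ∃ s : Fin (dimI A) → ι, IsTranscendenceBasis ℂ (fun j => cf A (s j)) := by
  haveI := hp
  haveI : Algebra.IsAlgebraic (Algebra.adjoin ℂ (Set.range (cf A))) (CR A) := by
    refine ⟨fun a => ?_⟩
    have ha : a ∈ Algebra.adjoin ℂ (Set.range (cf A)) := by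
      rw [adjoin_cf]
      trivial
    exact isAlgebraic_algebraMap (⟨a, ha⟩ : Algebra.adjoin ℂ (Set.range (cf A)))
  obtain ⟨u, hu, hb⟩ := exists_isTranscendenceBasis_subset (R := ℂ) (Set.range (cf A))
  have hfin : Finite u := (Set.finite_range (cf A)).subset hu
  have h1 := hb.cardinalMk_eq_trdeg
  have h2 : dimI A = Nat.card u := by
    unfold dimI
    rw [← h1]
    rfl
  rw [h2]
  have e : Fin (Nat.card u) ≃ u := (Finite.equivFin u).symm
  choose r hr using fun v : u => hu v.2
  refine ⟨fun j => r (e j), ?_⟩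
  have h3 : (fun j => cf A (r (e j))) = (fun v : u => (v : CR A)) ∘ e := by
    funext j
    rw [Function.comp_apply, hr]
  rw [h3]
  exact (isTranscendenceBasis_equiv e).2 hb

theorem trdeg_lt {A : Set (ι → ℂ)} [Fintype ι] (hp : (idealOf A).IsPrime) :
    Algebra.trdeg ℂ (CR A) < Cardinal.aleph0 := by
  haveI := hp
  haveI : Algebra.FiniteType ℂ (CR A) := inferInstance
  exact trdeg_lt_aleph0_of_finiteType

theorem card_le [Fintype ι] {A : Set (ι → ℂ)} (hp : (idealOf A).IsPrime) {d : ℕ}
    (s : Fin d → ι) (h : AlgebraicIndependent ℂ (fun j => cf A (s j))) : d ≤ dimI A := by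
  haveI := hp
  have h1 := h.cardinalMk_le_trdeg
  rw [Cardinal.mk_fin] at h1
  unfold dimI
  rw [← Cardinal.toNat_natCast d]
  exact Cardinal.toNat_le_toNat h1 (trdeg_lt hp)

theorem indep_iff {A : Set (ι → ℂ)} {K : Type} [Field K] {i : ℂ →+* K} {x : ι → Kˣ}
    (h : IsGen A i x) {d : ℕ} (s : Fin d → ι) :
    Indep i (fun j => vl x (s j)) ↔ AlgebraicIndependent ℂ (fun j => cf A (s j)) := by
  rw [algebraicIndependent_iff]
  have h1 : ∀ f : MvPolynomial (Fin d) ℂ,
      eval₂ i (fun j => vl x (s j)) f = 0 ↔ aeval (fun j => cf A (s j)) f = 0 := by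
    intro f
    rw [aeval_cf, Ideal.Quotient.eq_zero_iff_mem, h, eval₂_rename]
    rfl
  unfold Indep
  simp only [h1]

theorem isPrime_of_isGen {A : Set (ι → ℂ)} {K : Type} [Field K] {i : ℂ →+* K} {x : ι → Kˣ}
    (h : IsGen A i x) : (idealOf A).IsPrime := by
  have : idealOf A = RingHom.ker (eval₂Hom i (vl x)) := by
    ext f
    rw [RingHom.mem_ker, coe_eval₂Hom]
    exact h f
  rw [this]
  exact RingHom.ker_isPrime _

end DimL

open DimL

theorem dim : S_DIM := by
  intro ι _ A K _ i x h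
  have hp := isPrime_of_isGen h
  unfold td
  apply le_antisymm
  · apply le_csSup
    · refine ⟨dimI A, ?_⟩
      rintro d ⟨s, hs⟩
      exact card_le hp s ((indep_iff h s).1 hs)
    · obtain ⟨s, hs⟩ := exists_basis hp
      exact ⟨s, (indep_iff h s).2 hs.1⟩
  · apply csSup_le'
    rintro d ⟨s, hs⟩
    exact card_le hp s ((indep_iff h s).1 hs)

end Pool.Agent.Helper9K9.ZU
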