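import Pool.Agent.Helper9K9.ZU.Dim

/-!
[DLT] strict monotonicity of the dimension.
-/

set_option autoImplicit false

open MvPolynomial

namespace Pool.Agent.Helper9K9.ZU

open LocL DimL

theorem dlt : S_DLT := by
  intro ι _ A B hA hB hAB hne
  have hQ := hA.2
  have hP := hB.2
  have hPQ : idealOf B ≤ idealOf A := idealOf_anti hAB
  obtain ⟨s, hs⟩ := exists_basis hQ
  have hsB : AlgebraicIndependent ℂ (fun j => cf B (s j)) := by
    rw [algebraicIndependent_iff]
    intro f hf
    rw [aeval_cf, Ideal.Quotient.eq_zero_iff_mem] at hf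
    apply (algebraicIndependent_iff.1 hs.1) f
    rw [aeval_cf, Ideal.Quotient.eq_zero_iff_mem]
    exact hPQ hf
  have hle : dimI A ≤ dimI B := card_le hP s hsB
  refine lt_of_le_of_ne hle fun heq => ?_
  have hdB : Algebra.trdeg ℂ (CR B) ≤ Cardinal.mk (Fin (dimI A)) := by
    rw [Cardinal.mk_fin, heq]
    unfold dimI
    rw [Cardinal.cast_toNat_of_lt_aleph0 (trdeg_lt hP)]
  have hbas : IsTranscendenceBasis ℂ (fun j => cf B (s j)) :=
    hsB.isTranscendenceBasis_of_trdeg_le_of_finite hdB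
  have hlt : ∃ g ∈ idealOf A, g ∉ idealOf B := by
    by_contra hcon
    push Not at hcon
    have h1 : idealOf A = idealOf B := le_antisymm hcon hPQ
    apply hne
    rw [← zeros_idealOf' hA.1, h1, zeros_idealOf' hB.1]
  obtain ⟨g, hgA, hgB⟩ := hlt
  haveI := hP
  haveI := hbas.isAlgebraic
  have halg : IsAlgebraic (Algebra.adjoin ℂ (Set.range fun j => cf B (s j)))
      (Ideal.Quotient.mk (idealOf B) g) := Algebra.IsAlgebraic.isAlgebraic _
  have hg0 : Ideal.Quotient.mk (idealOf B) g ≠ 0 := by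
    rwa [Ne, Ideal.Quotient.eq_zero_iff_mem]
  obtain ⟨r, hr0, t, hr⟩ := halg.exists_nonzero_dvd (mem_nonZeroDivisors_of_ne_zero hg0)
  obtain ⟨r, hrm⟩ := r
  have hrm' := hrm
  rw [Algebra.adjoin_range_eq_range_aeval] at hrm'
  obtain ⟨h, hh⟩ := hrm'
  have hh' : aeval (fun j => cf B (s j)) h = r := hh
  have h0 : h = 0 := by
    apply (algebraicIndependent_iff.1 hs.1) h
    rw [aeval_cf, Ideal.Quotient.eq_zero_iff_mem]
    have h2 : (r : CR B) = Ideal.Quotient.mk (idealOf B) g * t := hr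
    obtain ⟨t', rfl⟩ := Ideal.Quotient.mk_surjective t
    rw [← hh', aeval_cf, ← map_mul, Ideal.Quotient.eq] at h2
    have h3 := hPQ h2
    have h4 : g * t' ∈ idealOf A := Ideal.mul_mem_right _ _ hgA
    have h5 := Ideal.add_mem _ h3 h4
    rwa [sub_add_cancel] at h5
  apply hr0
  apply Subtype.ext
  show r = 0
  rw [← hh', h0, map_zero]

end Pool.Agent.Helper9K9.ZU
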