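import Pool.Agent.Helper9K9.ZU.Defs

/-!
Statements of the leaves.
-/

set_option autoImplicit false

open MvPolynomial

namespace Pool.Agent.Helper9K9.ZU

/-- [SPEC] ranks of a tuple and of a part of it under specialization -/
def S_SPEC : Prop :=
  ∀ (K K' : Type) [Field K] [Field K'] (I J : Type) [Fintype I] [Fintype J]
    (γ : J → Kˣ) (γ' : J → K'ˣ) (τ : I → J), Function.Injective τ → rel γ ≤ rel γ' →
    rk γ' + rk (fun j => γ (τ j)) ≤ rk (fun j => γ' (τ j)) + rk γ

/-- [MONO] rank minus transcendence degree is monotone -/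
def S_MONO : Prop :=
  ∀ (F K : Type) [Field F] [Field K] (i : F →+* K) (I J : Type) [Fintype I] [Fintype J]
    (γ : I → Kˣ) (α : J → I → ℤ),
    rk (fun j => mon γ (α j)) + td i (vl γ) ≤ rk γ + td i (vl fun j => mon γ (α j))

/-- [JAC] points of the power of the line which specialize to a point with independent gates have no
small defect -/
def S_JAC : Prop :=
  ∀ (F K L : Type) [Field F] [Field K] [Field L] [CharZero F] (i : F →+* K) (l : F →+* L)
    (k : ℕ) (y : Fin k × Fin 2 → Kˣ) (e : Fin k × Fin 2 → Lˣ),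
    (∀ f, eval₂ i (vl y) f = 0 → eval₂ l (vl e) f = 0) → OnL y → Free e →
    td i (vl y) + k ≤ rk y

/-- The tangent space of the locus of `z` over the integers. -/
def tan {K : Type} [Field K] {I : Type} [Fintype I] (z : I → Kˣ) : Submodule K (I → K) where
  carrier := {v | ∀ f : MvPolynomial I ℤ, eval₂ (Int.castRingHom K) (vl z) f = 0 →
    ∑ j, v j * eval₂ (Int.castRingHom K) (vl z) (pderiv j f) = 0}
  add_mem' := by
    intro v w hv hw f hf
    have h1 := hv f hf
    have h2 := hw f hf
    simp only [Pi.add_apply, add_mul, Finset.sum_add_distrib, h1, h2, add_zero]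
  zero_mem' := by
    intro f _
    simp
  smul_mem' := by
    intro c v hv f hf
    have h1 := hv f hf
    simp only [Pi.smul_apply, smul_eq_mul, mul_assoc, ← Finset.mul_sum, h1, mul_zero]

/-- [TAN] its dimension -/
def S_TAN : Prop :=
  ∀ (K : Type) [Field K] [CharZero K] (I : Type) [Fintype I] (z : I → Kˣ),
    Module.finrank K (tan z) ≤ td (Int.castRingHom K) (vl z)

/-- The logarithmic vectors which respect all relations and all gates of the group generated by the
tuple. -/
def lam {K : Type} [Field K] {N : ℕ} (γ : Fin N → Kˣ) : Submodule K (Fin N → K) where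
  carrier := {v | (∀ a ∈ rel γ, ∑ i, (a i : K) * v i = 0) ∧
    ∀ α β : Fin N → ℤ, (mon γ α : K) + mon γ β = 1 →
      (mon γ α : K) * ∑ i, (α i : K) * v i + (mon γ β : K) * ∑ i, (β i : K) * v i = 0}
  add_mem' := by
    intro v w hv hw
    refine ⟨fun a ha => ?_, fun α β h => ?_⟩
    · have h1 := hv.1 a ha
      have h2 := hw.1 a ha
      simp only [Pi.add_apply, mul_add, Finset.sum_add_distrib, h1, h2, add_zero]
    · have h1 := hv.2 α β h
      have h2 := hw.2 α β h
      simp only [Pi.add_apply, mul_add, Finset.sum_add_distrib]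
      linear_combination h1 + h2
  zero_mem' := by
    refine ⟨fun a _ => ?_, fun α β _ => ?_⟩ <;> simp
  smul_mem' := by
    intro c v hv
    refine ⟨fun a ha => ?_, fun α β h => ?_⟩
    · have h1 := hv.1 a ha
      have h3 : ∀ i, (a i : K) * (c • v) i = c * ((a i : K) * v i) := fun i => by
        rw [Pi.smul_apply, smul_eq_mul]; ring
      simp only [h3, ← Finset.mul_sum, h1, mul_zero]
    · have h1 := hv.2 α β h
      have h3 : ∀ (b : Fin N → ℤ) (i : Fin N), (b i : K) * (c • v) i = c * ((b i : K) * v i) :=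
        fun b i => by rw [Pi.smul_apply, smul_eq_mul]; ring
      simp only [h3, ← Finset.mul_sum]
      linear_combination c * h1

/-- [CHAIN] the tuple of the nonzero partial sums of the equations -/
def S_CHAIN : Prop :=
  ∀ (K : Type) [Field K] [CharZero K] (I : Type) [Fintype I] (z : I → Kˣ),
    ∃ (N : ℕ) (γ : Fin N → Kˣ) (S : Fin N → MvPolynomial I ℤ) (τ : I → Fin N),
      Function.Injective τ ∧ (∀ j, S (τ j) = X j) ∧
      (∀ n, (γ n : K) = eval₂ (Int.castRingHom K) (vl z) (S n)) ∧
      Module.finrank K (lam γ) ≤ Module.finrank K (tan z)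

/-- [PICK] independent gates -/
def S_PICK : Prop :=
  ∀ (K : Type) [Field K] [CharZero K] (N : ℕ) (γ : Fin N → Kˣ),
    ∃ (k : ℕ) (α : Fin k × Fin 2 → Fin N → ℤ), OnL (fun g => mon γ (α g)) ∧
      rk γ ≤ k + Module.finrank K (lam γ) ∧ Free (fun g => mon γ (α g))

/-- [DEN] polynomials in monomials of the tuple, denominators cleared -/
def S_DEN : Prop :=
  ∀ (F : Type) [Field F] (I J : Type) [Fintype I] [Fintype J] (N : ℕ)
    (S : Fin N → MvPolynomial I ℤ) (α : J → Fin N → ℤ) (P : MvPolynomial J F),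
    ∃ H : MvPolynomial I F, ∀ (K : Type) [Field K] (i : F →+* K) (z : I → K) (γ : Fin N → Kˣ),
      (∀ n, (γ n : K) = eval₂ (Int.castRingHom K) z (S n)) →
      (eval₂ i z H = 0 ↔ eval₂ i (vl fun j => mon γ (α j)) P = 0)

/-- The main property: a closed proper subset contains all specializations of smaller defect. -/
def Star (F : Type) [Field F] (I : Type) [Fintype I] (K : Type) [Field K] (i : F →+* K)
    (z : I → Kˣ) : Prop :=
  ∃ H : MvPolynomial I F, eval₂ i (vl z) H ≠ 0 ∧
    ∀ (K' : Type) [Field K'] (i' : F →+* K') (ζ : I → K'ˣ),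
      (∀ f : MvPolynomial I F, eval₂ i (vl z) f = 0 → eval₂ i' (vl ζ) f = 0) →
      rk ζ + td i (vl z) < rk z + td i' (vl ζ) → eval₂ i' (vl ζ) H = 0

/-- [CORE] (assembly) the main property for tuples whose algebraic relations over `F` come from the
integers -/
def S_CORE : Prop :=
  ∀ (F : Type) [Field F] [CharZero F], HypL F → ∀ (K : Type) [Field K] (i : F →+* K)
    (I : Type) [Fintype I] (z : I → Kˣ),
    td (Int.castRingHom K) (vl z) ≤ td i (vl z) → Star F I K i z

/-- [END] an endomorphism of the complex numbers the image of which is independent of `c` -/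
def S_END : Prop :=
  ∀ (q : ℕ) (c : Fin q → ℂ), ∃ (σ : ℂ →+* ℂ) (t : Fin (td (Int.castRingHom ℂ) c) → Fin q),
    Indep σ (fun j => c (t j))

/-- [FA] adding constants -/
def S_FA : Prop :=
  ∀ (q d : ℕ) (c : Fin q → ℂ) (σ : ℂ →+* ℂ) (t : Fin d → Fin q), Indep σ (fun j => c (t j)) →
    ∀ (K : Type) [Field K] (i : ℂ →+* K) (I : Type) [Fintype I] (x : I → K),
      d + td i x ≤ td (i.comp σ) (Sum.elim x fun j => i (c j))

/-- [FB] the constants of the equations -/
def S_FB : Prop :=
  ∀ (q : ℕ) (c : Fin q → ℂ) (K : Type) [Field K] (i : ℂ →+* K) (I : Type) [Fintype I]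
    (x : I → K) (G : Finset (MvPolynomial I ℂ)),
    (∀ f, eval₂ i x f = 0 ↔ f ∈ Ideal.span (G : Set (MvPolynomial I ℂ))) →
    (∀ g ∈ G, ∀ β, g.coeff β ≠ 0 → ∃ j, g.coeff β = c j) →
    td (Int.castRingHom K) (Sum.elim x fun j => i (c j)) ≤ td (Int.castRingHom ℂ) c + td i x

/-- [STAR] (assembly) the main property for all complex tuples -/
def S_STAR : Prop :=
  HypL ℂ → ∀ (I : Type) [Fintype I] (K : Type) [Field K] (i : ℂ →+* K) (x : I → Kˣ),
    Star ℂ I K i x

end Pool.Agent.Helper9K9.ZU
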