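import Pool.Agent.Helper9K9.ZU.Basic
import Pool.Agent.Helper9K9.ZU.Stm

/-!
[END] an endomorphism of the complex numbers the image of which is independent of `c`
-/

set_option autoImplicit false

open MvPolynomial Cardinal

namespace Pool.Agent.Helper9K9.ZU

namespace EndL

/-- extension of homomorphisms to algebraic extensions -/
theorem exists_ext {R C D : Type} [CommRing R] [IsDomain R] [Field C] [Field D] [IsAlgClosed D]
    (a : R →+* C) (hai : Function.Injective a)
    (ha : @Algebra.IsAlgebraic R C _ _ a.toAlgebra) (f : R →+* D) (hf : Function.Injective f) :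
    ∃ σ : C →+* D, σ.comp a = f := by
  letI := a.toAlgebra
  letI := f.toAlgebra
  haveI : Algebra.IsAlgebraic R C := ha
  haveI : FaithfulSMul R C := (faithfulSMul_iff_algebraMap_injective R C).2 hai
  haveI : FaithfulSMul R D := (faithfulSMul_iff_algebraMap_injective R D).2 hf
  haveI : Module.IsTorsionFree R C := inferInstance
  haveI : Module.IsTorsionFree R D := inferInstance
  refine ⟨((IsAlgClosed.lift : C →ₐ[R] D) : C →+* D), ?_⟩
  exact AlgHom.comp_algebraMap (IsAlgClosed.lift : C →ₐ[R] D)

/-- independence over an algebraic extension -/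
theorem indep_ext {R C D : Type} [CommRing R] [IsDomain R] [Field C] [Field D]
    (a : R →+* C) (ha : @Algebra.IsAlgebraic R C _ _ a.toAlgebra) (σ : C →+* D) {J : Type}
    (x : J → D) (h : Indep (σ.comp a) x) : Indep σ x := by
  letI := a.toAlgebra
  letI := σ.toAlgebra
  letI := (σ.comp a).toAlgebra
  haveI : Algebra.IsAlgebraic R C := ha
  haveI : IsScalarTower R C D := IsScalarTower.of_algebraMap_eq fun _ => rfl
  have h1 : AlgebraicIndependent R x := by
    rw [algebraicIndependent_iff]
    exact h
  have h2 : AlgebraicIndependent C x := h1.extendScalars C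
  rw [algebraicIndependent_iff] at h2
  exact h2

/-- independence over a polynomial ring -/
theorem indep_poly {T D J : Type} [Field D] (u : J → D) (v : T → D)
    (h : Indep (Int.castRingHom D) (Sum.elim u v)) :
    Indep (eval₂Hom (Int.castRingHom D) v) u := by
  intro p hp
  obtain ⟨p', rfl⟩ := (sumRingEquiv ℤ J T).surjective p
  have h1 : (eval₂Hom (eval₂Hom (Int.castRingHom D) v) u).comp
      ((sumRingEquiv ℤ J T : MvPolynomial (J ⊕ T) ℤ ≃+* _) :
        MvPolynomial (J ⊕ T) ℤ →+* MvPolynomial J (MvPolynomial T ℤ)) =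
      eval₂Hom (Int.castRingHom D) (Sum.elim u v) := by
    apply MvPolynomial.ringHom_ext
    · intro r
      simp
    · intro j
      rcases j with j | j
      · simp
      · simp
  have h2 := RingHom.congr_fun h1 p'
  have h3 : eval₂ (Int.castRingHom D) (Sum.elim u v) p' = 0 := by
    rw [← coe_eval₂Hom, ← h2]
    exact hp
  rw [h p' h3, map_zero]

end EndL

open EndL

theorem en : S_END := by
  intro q c
  obtain ⟨t, ht⟩ := exists_td (RingHom.injective_int (Int.castRingHom ℂ)) c
  have hz : algebraMap ℤ ℂ = Int.castRingHom ℂ := RingHom.ext_int _ _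
  have ht' : AlgebraicIndependent ℤ (fun j => c (t j)) := by
    rw [algebraicIndependent_iff]
    intro p hp
    refine ht p ?_
    rw [aeval_def, hz] at hp
    exact hp
  obtain ⟨T, hT, hTB⟩ := exists_isTranscendenceBasis_superset ht'.to_subtype_range
  have hcard : #ℂ = #T := by
    refine IsAlgClosed.cardinal_eq_cardinal_transcendence_basis_of_aleph0_lt' _ hTB
      (le_of_eq mk_int) ?_
    rw [mk_complex]
    exact aleph0_lt_continuum
  have hTinf : Infinite T := by
    rw [infinite_iff, ← hcard, mk_complex]
    exact aleph0_le_continuum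
  let T0 : Set T := {v | (v : ℂ) ∈ Set.range fun j => c (t j)}
  have hT0 : T0.Finite := by
    refine Set.Finite.preimage Subtype.val_injective.injOn ?_
    exact Set.finite_range _
  have hT0c : #(T0ᶜ : Set T) = #T := by
    refine mk_compl_of_infinite T0 ?_
    exact (hT0.lt_aleph0).trans_le (aleph0_le_mk T)
  obtain ⟨e⟩ := Cardinal.eq.1 hT0c
  let a : MvPolynomial T ℤ →+* ℂ := eval₂Hom (Int.castRingHom ℂ) (fun v : T => (v : ℂ))
  let f : MvPolynomial T ℤ →+* ℂ := eval₂Hom (Int.castRingHom ℂ) (fun v : T => ((e.symm v : T) : ℂ))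
  have haev : ∀ p, a p = aeval (fun v : T => (v : ℂ)) p := by
    intro p
    rw [aeval_def, hz]
    rfl
  have hai : Function.Injective a := by
    intro p p' h
    rw [haev, haev] at h
    exact hTB.1 h
  have hs : Indep (Int.castRingHom ℂ)
      (Sum.elim (fun j => c (t j)) (fun v : T => ((e.symm v : T) : ℂ))) := by
    let r : Fin (td (Int.castRingHom ℂ) c) ⊕ T → T :=
      Sum.elim (fun j => ⟨c (t j), hT ⟨j, rfl⟩⟩) (fun v => (e.symm v : T))
    have hr : Function.Injective r := by
      rintro (x | x) (y | y) hxy
      · have h1 : c (t x) = c (t y) := congrArg (fun v : T => (v : ℂ)) hxy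
        exact congrArg Sum.inl (ht.inj h1)
      · exfalso
        have h1 : c (t x) = ((e.symm y : T) : ℂ) := congrArg (fun v : T => (v : ℂ)) hxy
        exact (e.symm y).2 ⟨x, h1⟩
      · exfalso
        have h1 : ((e.symm x : T) : ℂ) = c (t y) := congrArg (fun v : T => (v : ℂ)) hxy
        exact (e.symm x).2 ⟨y, h1.symm⟩
      · have h1 : (e.symm x : T) = (e.symm y : T) := hxy
        exact congrArg Sum.inr (e.symm.injective (Subtype.ext h1))
    have h2 := hTB.1.comp r hr
    rw [algebraicIndependent_iff] at h2
    intro p hp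
    refine h2 p ?_
    rw [aeval_def, hz]
    rw [← hp]
    congr 1
    funext j
    rcases j with j | j <;> rfl
  have hfi : Function.Injective f := by
    rw [injective_iff_map_eq_zero]
    intro p hp
    have h1 : eval₂ (Int.castRingHom ℂ)
        (Sum.elim (fun j => c (t j)) (fun v : T => ((e.symm v : T) : ℂ))) (rename Sum.inr p) = 0 := by
      rw [eval₂_rename]
      exact hp
    have h2 := hs _ h1
    exact (rename_injective _ Sum.inr_injective) (h2.trans (map_zero _).symm)
  have haa : @Algebra.IsAlgebraic (MvPolynomial T ℤ) ℂ _ _ a.toAlgebra := by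
    letI := a.toAlgebra
    haveI := hTB.isAlgebraic
    refine Algebra.IsAlgebraic.of_ringHom_of_comp_eq hTB.1.aevalEquiv (RingHom.id ℂ)
      hTB.1.aevalEquiv.surjective Function.injective_id ?_
    refine RingHom.ext fun p => ?_
    exact (hTB.1.algebraMap_aevalEquiv p).trans (haev p).symm
  obtain ⟨σ, hσ⟩ := exists_ext a hai haa f hfi
  refine ⟨σ, t, ?_⟩
  apply indep_ext a haa
  rw [hσ]
  exact indep_poly _ _ hs

end Pool.Agent.Helper9K9.ZU
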