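import Pool.Agent.Helper9K9.ZU.Basic

/-!
[FA] adding constants which are independent over the image of an endomorphism.
-/

set_option autoImplicit false

open MvPolynomial

namespace Pool.Agent.Helper9K9.ZU

/-- independent families over two stages -/
theorem indep_append {F E K : Type} [CommRing F] [CommRing E] [Field K] {σ : F →+* E}
    {i : E →+* K} {d e : ℕ} {c : Fin d → E} {x : Fin e → K}
    (hc : ∀ f : MvPolynomial (Fin d) F, eval₂ σ c f = 0 → f = 0) (hx : Indep i x) :
    Indep (i.comp σ) (fun j : Fin (d + e) => Sum.elim x (fun j => i (c j))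
      (Sum.swap (finSumFinEquiv.symm j))) := by
  let φ : MvPolynomial (Fin d) F →+* E := eval₂Hom σ c
  have hφ : Function.Injective φ := by
    rw [injective_iff_map_eq_zero]
    intro f hf
    exact hc f hf
  let ψ : MvPolynomial (Fin e) (MvPolynomial (Fin d) F) →+* K :=
    (eval₂Hom i x).comp (MvPolynomial.map φ)
  have hψ : Function.Injective ψ := by
    rw [injective_iff_map_eq_zero]
    intro f hf
    have h1 : MvPolynomial.map φ f = 0 := hx _ hf
    exact map_injective φ hφ (h1.trans (map_zero _).symm)
  let τ : Fin (d + e) → Fin e ⊕ Fin d := fun j => Sum.swap (finSumFinEquiv.symm j)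
  have hτ : Function.Injective τ :=
    (Equiv.sumComm _ _).injective.comp finSumFinEquiv.symm.injective
  have key : eval₂Hom (i.comp σ) (fun j => Sum.elim x (fun j => i (c j)) (τ j)) =
      ((ψ.comp (sumRingEquiv F (Fin e) (Fin d)).toRingHom).comp
        (rename τ : MvPolynomial (Fin (d + e)) F →ₐ[F] _).toRingHom) := by
    apply MvPolynomial.ringHom_ext
    · intro r
      simp [ψ, φ]
    · intro j
      rcases h : τ j with a | b
      · simp [ψ, h]
      · simp [ψ, φ, h]
  intro f hf
  have h1 : ψ (sumRingEquiv F (Fin e) (Fin d) (rename τ f)) = 0 := by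
    have := DFunLike.congr_fun key f
    rw [coe_eval₂Hom] at this
    exact this.symm.trans hf
  have h2 : sumRingEquiv F (Fin e) (Fin d) (rename τ f) = 0 := hψ (h1.trans (map_zero ψ).symm)
  have h3 : rename τ f = 0 :=
    (sumRingEquiv F (Fin e) (Fin d)).injective
      (h2.trans (map_zero (sumRingEquiv F (Fin e) (Fin d))).symm)
  exact rename_injective τ hτ (h3.trans (map_zero _).symm)

theorem fa : S_FA := by
  intro q d c σ t ht K _ i I _ x
  obtain ⟨s, hs⟩ := exists_td i.injective x
  refine le_td (s := fun j => Sum.map s t (Sum.swap (finSumFinEquiv.symm j))) ?_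
  have h := indep_append ht hs
  have h2 : (fun j : Fin (d + td i x) => Sum.elim x (fun j => i (c j))
      (Sum.map s t (Sum.swap (finSumFinEquiv.symm j)))) =
      fun j : Fin (d + td i x) => Sum.elim (fun j => x (s j)) (fun j => i (c (t j)))
      (Sum.swap (finSumFinEquiv.symm j)) := by
    funext j
    rcases Sum.swap (finSumFinEquiv.symm j) with a | b <;> rfl
  rw [h2]
  exact h

end Pool.Agent.Helper9K9.ZU
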