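import Pool.Agent.Helper9K9.ZU.Basic

/-!
[FB] the constants of the equations: the transcendence degree of a point together with the
coefficients of its equations.
-/

set_option autoImplicit false

open MvPolynomial

namespace Pool.Agent.Helper9K9.ZU

namespace FbL

section
variable {k L : Type} [Field k] [Field L] [Algebra k L] (l : L →ₗ[k] k) {σ τ : Type}

/-- a linear functional applied to the coefficients -/
noncomputable def Lf (f : MvPolynomial σ L) : MvPolynomial σ k :=
  ∑ β ∈ f.support, monomial β (l (f.coeff β))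

theorem coeff_Lf (f : MvPolynomial σ L) (β : σ →₀ ℕ) : (Lf l f).coeff β = l (f.coeff β) := by
  classical
  unfold Lf
  rw [coeff_sum]
  simp only [coeff_monomial]
  rw [Finset.sum_ite_eq']
  split_ifs with h
  · rfl
  · rw [notMem_support_iff.1 h, map_zero]

theorem Lf_zero : Lf l (0 : MvPolynomial σ L) = 0 := by
  ext β
  rw [coeff_Lf, coeff_zero, map_zero, coeff_zero]

theorem Lf_add (f g : MvPolynomial σ L) : Lf l (f + g) = Lf l f + Lf l g := by
  ext β
  rw [coeff_Lf, coeff_add, map_add, coeff_add, coeff_Lf, coeff_Lf]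

theorem Lf_mul_map (p : MvPolynomial σ L) (g : MvPolynomial σ k) :
    Lf l (p * map (algebraMap k L) g) = Lf l p * g := by
  classical
  ext β
  rw [coeff_Lf, coeff_mul, coeff_mul, map_sum]
  refine Finset.sum_congr rfl fun uv _ => ?_
  rw [coeff_map, coeff_Lf, mul_comm, ← Algebra.smul_def, map_smul, smul_eq_mul, mul_comm]

theorem Lf_rename (s : τ → σ) (f : MvPolynomial τ L) :
    Lf l (rename s f) = rename s (Lf l f) := by
  have hmon : ∀ (ρ : Type) (β : ρ →₀ ℕ) (a : L), Lf l (monomial β a) = monomial β (l a) := by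
    intro ρ β a
    classical
    ext γ
    rw [coeff_Lf, coeff_monomial, coeff_monomial]
    split_ifs
    · rfl
    · rw [map_zero]
  induction f using MvPolynomial.monomial_add_induction_on with
  | C a =>
    rw [rename_C, ← monomial_zero', ← monomial_zero', hmon, hmon, rename_monomial,
      Finsupp.mapDomain_zero]
  | monomial_add β b f _ _ ih =>
    rw [map_add, Lf_add, ih, Lf_add, map_add, rename_monomial, hmon, hmon, rename_monomial]

end

/-- independence over the field of definition implies independence -/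
theorem descend {k L K : Type} [Field k] [Field L] [Field K] [Algebra k L] [Algebra L K]
    [Algebra k K] [IsScalarTower k L K] {I J : Type} (x : I → K) (G : Set (MvPolynomial I L))
    (hG : ∀ f, aeval x f = 0 ↔ f ∈ Ideal.span G)
    (hk : ∀ g ∈ G, ∃ g' : MvPolynomial I k, map (algebraMap k L) g' = g) (s : J → I)
    (hs : AlgebraicIndependent k (fun j => x (s j))) :
    AlgebraicIndependent L (fun j => x (s j)) := by
  rw [algebraicIndependent_iff]
  intro f hf
  by_contra hne
  obtain ⟨β, hβ⟩ := ne_zero_iff.1 hne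
  obtain ⟨l, hl⟩ : ∃ l : L →ₗ[k] k, l (f.coeff β) ≠ 0 := by
    by_contra hcon
    push Not at hcon
    exact hβ ((Module.forall_dual_apply_eq_zero_iff k _).1 hcon)
  have h1 : rename s f ∈ Ideal.span G := by
    rw [← hG, aeval_rename]
    exact hf
  have h2 : ∀ h ∈ Ideal.span G, ∀ p : MvPolynomial I L, aeval x (Lf l (p * h)) = 0 := by
    intro h hh
    refine Submodule.span_induction (p := fun h _ => ∀ p : MvPolynomial I L,
      aeval x (Lf l (p * h)) = 0) ?_ ?_ ?_ ?_ hh
    · intro g hg p
      obtain ⟨g', rfl⟩ := hk g hg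
      rw [Lf_mul_map, map_mul]
      have h3 : aeval x (map (algebraMap k L) g') = 0 := (hG _).2 (Ideal.subset_span hg)
      rw [aeval_map_algebraMap] at h3
      rw [h3, mul_zero]
    · intro p
      rw [mul_zero, Lf_zero, map_zero]
    · intro a b _ _ ha hb p
      rw [mul_add, Lf_add, map_add, ha p, hb p, add_zero]
    · intro a b _ hb p
      rw [smul_eq_mul, ← mul_assoc]
      exact hb _
  have h3 := h2 _ h1 1
  rw [one_mul, Lf_rename, aeval_rename] at h3
  have h4 := (algebraicIndependent_iff.1 hs) _ h3
  apply hl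
  rw [← coeff_Lf, h4, coeff_zero]

/-- the same over a domain -/
theorem descend' {S L K : Type} [CommRing S] [IsDomain S] [Field L] [Field K] [Algebra S L]
    [Algebra L K] [Algebra S K] [IsScalarTower S L K] [FaithfulSMul S L] {I J : Type} (x : I → K)
    (G : Set (MvPolynomial I L)) (hG : ∀ f, aeval x f = 0 ↔ f ∈ Ideal.span G)
    (hk : ∀ g ∈ G, ∃ g' : MvPolynomial I S, map (algebraMap S L) g' = g) (s : J → I)
    (hs : AlgebraicIndependent S (fun j => x (s j))) :
    AlgebraicIndependent L (fun j => x (s j)) := by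
  letI : Algebra (FractionRing S) L := FractionRing.liftAlgebra S L
  haveI : IsScalarTower S (FractionRing S) L := FractionRing.isScalarTower_liftAlgebra S L
  letI : Algebra (FractionRing S) K := ((algebraMap L K).comp (algebraMap (FractionRing S) L)).toAlgebra
  haveI : IsScalarTower (FractionRing S) L K := IsScalarTower.of_algebraMap_eq fun _ => rfl
  haveI : IsScalarTower S (FractionRing S) K := IsScalarTower.of_algebraMap_eq fun a => by
    rw [IsScalarTower.algebraMap_apply S L K, IsScalarTower.algebraMap_apply S (FractionRing S) L]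
    rfl
  haveI : Algebra.IsAlgebraic S (FractionRing S) := 
    (IsFractionRing.comap_isAlgebraic_iff (A := S) (K := FractionRing S)).2 inferInstance
  refine descend (k := FractionRing S) x G hG ?_ s (hs.extendScalars (FractionRing S))
  intro g hg
  obtain ⟨g', rfl⟩ := hk g hg
  refine ⟨map (algebraMap S (FractionRing S)) g', ?_⟩
  rw [map_map, ← IsScalarTower.algebraMap_eq]

/-- transcendence bases among generators -/
theorem exists_basis {R A : Type} [CommRing R] [Nontrivial R] [CommRing A] [IsDomain A] [Algebra R A]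
    [FaithfulSMul R A] {I : Type} [Fintype I] (y : I → A)
    (hy : Algebra.adjoin R (Set.range y) = ⊤) :
    ∃ (d : ℕ) (s : Fin d → I), IsTranscendenceBasis R (fun j => y (s j)) := by
  haveI : Algebra.IsAlgebraic (Algebra.adjoin R (Set.range y)) A := by
    refine ⟨fun a => ?_⟩
    have ha : a ∈ Algebra.adjoin R (Set.range y) := by
      rw [hy]
      trivial
    exact isAlgebraic_algebraMap (⟨a, ha⟩ : Algebra.adjoin R (Set.range y))
  obtain ⟨u, hu, hb⟩ := exists_isTranscendenceBasis_subset (R := R) (Set.range y)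
  have hfin : Finite u := (Set.finite_range y).subset hu
  have e : Fin (Nat.card u) ≃ u := (Finite.equivFin u).symm
  choose r hr using fun v : u => hu v.2
  refine ⟨Nat.card u, fun j => r (e j), ?_⟩
  have h3 : (fun j => y (r (e j))) = (fun v : u => (v : A)) ∘ e := by
    funext j
    rw [Function.comp_apply, hr]
  rw [h3]
  exact (isTranscendenceBasis_equiv e).2 hb

/-- transcendence degree in a tower, generators -/
theorem tower {S L K : Type} [CommRing S] [IsDomain S] [CharZero S] [Field L] [Field K]
    [Algebra S L] [Algebra L K] [Algebra S K] [IsScalarTower S L K] [FaithfulSMul S L]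
    {I J : Type} [Fintype I] [Fintype J] (x : I → K) (c : J → S)
    (hc : Algebra.adjoin ℤ (Set.range c) = ⊤)
    (G : Set (MvPolynomial I L)) (hG : ∀ f, aeval x f = 0 ↔ f ∈ Ideal.span G)
    (hk : ∀ g ∈ G, ∃ g' : MvPolynomial I S, map (algebraMap S L) g' = g) {d : ℕ}
    (s : Fin d → I ⊕ J) (hs : AlgebraicIndependent ℤ
      (fun j => Sum.elim x (fun j => algebraMap S K (c j)) (s j))) :
    ∃ (a b : ℕ) (s1 : Fin a → J) (s2 : Fin b → I), d ≤ a + b ∧
      AlgebraicIndependent ℤ (fun j => c (s1 j)) ∧
      AlgebraicIndependent L (fun j => x (s2 j)) := by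
  haveI : FaithfulSMul S K := by
    rw [faithfulSMul_iff_algebraMap_injective, IsScalarTower.algebraMap_eq S L K]
    exact (algebraMap L K).injective.comp (FaithfulSMul.algebraMap_injective S L)
  haveI : FaithfulSMul ℤ S := by
    rw [faithfulSMul_iff_algebraMap_injective]
    exact Int.cast_injective
  let A : Subalgebra S K := Algebra.adjoin S (Set.range x)
  haveI : FaithfulSMul S A := by
    rw [faithfulSMul_iff_algebraMap_injective]
    intro a b hab
    apply FaithfulSMul.algebraMap_injective S K
    exact congrArg (fun z : A => (z : K)) hab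
  have hxA : ∀ j, x j ∈ A := fun j => Algebra.subset_adjoin ⟨j, rfl⟩
  let x' : I → A := fun j => ⟨x j, hxA j⟩
  have hx' : Algebra.adjoin S (Set.range x') = ⊤ := by
    rw [eq_top_iff]
    rintro ⟨a, ha⟩ -
    refine Algebra.adjoin_induction (p := fun a ha => (⟨a, ha⟩ : A) ∈ Algebra.adjoin S (Set.range x'))
      ?_ ?_ ?_ ?_ ha
    · rintro _ ⟨j, rfl⟩
      exact Algebra.subset_adjoin ⟨j, rfl⟩
    · intro r
      exact Subalgebra.algebraMap_mem _ r
    · intro a b ha hb h1 h2
      exact add_mem h1 h2
    · intro a b ha hb h1 h2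
      exact mul_mem h1 h2
  obtain ⟨a, s1, h1⟩ := exists_basis (R := ℤ) c hc
  obtain ⟨b, s2, h2⟩ := exists_basis (R := S) x' hx'
  have h2K : AlgebraicIndependent S (fun j => x (s2 j)) := by
    have := h2.1.map' (f := A.val) Subtype.val_injective
    exact this
  refine ⟨a, b, s1, s2, ?_, h1.1, descend' x G hG hk s2 h2K⟩
  let y : Fin d → A := fun j => Sum.elim x' (fun j => algebraMap S A (c j)) (s j)
  have hy : AlgebraicIndependent ℤ y := by
    apply AlgebraicIndependent.of_comp (A.val.restrictScalars ℤ)
    have : (A.val.restrictScalars ℤ) ∘ y =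
        (fun j => Sum.elim x (fun j => algebraMap S K (c j)) (s j)) := by
      funext j
      show (A.val.restrictScalars ℤ) (Sum.elim x' (fun j => algebraMap S A (c j)) (s j)) = _
      rcases s j with p | p <;> rfl
    rw [this]
    exact hs
  have h3 := hy.cardinalMk_le_trdeg
  rw [← trdeg_add_eq ℤ S (A := A), ← h1.cardinalMk_eq_trdeg, ← h2.cardinalMk_eq_trdeg, Cardinal.mk_fin,
    Cardinal.mk_fin, Cardinal.mk_fin] at h3
  exact_mod_cast h3

end FbL

open FbL

theorem fb : S_FB := by
  intro q c K _ i I _ x G hG hc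
  letI : Algebra ℂ K := i.toAlgebra
  let S : Subalgebra ℤ ℂ := Algebra.adjoin ℤ (Set.range c)
  haveI : CharZero S := inferInstance
  haveI : FaithfulSMul S ℂ := by
    rw [faithfulSMul_iff_algebraMap_injective]
    exact Subtype.val_injective
  let c' : Fin q → S := fun j => ⟨c j, Algebra.subset_adjoin ⟨j, rfl⟩⟩
  have hc' : Algebra.adjoin ℤ (Set.range c') = ⊤ := by
    rw [eq_top_iff]
    rintro ⟨a, ha⟩ -
    refine Algebra.adjoin_induction (p := fun a ha => (⟨a, ha⟩ : S) ∈ Algebra.adjoin ℤ (Set.range c'))
      ?_ ?_ ?_ ?_ ha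
    · rintro _ ⟨j, rfl⟩
      exact Algebra.subset_adjoin ⟨j, rfl⟩
    · intro r
      exact Subalgebra.algebraMap_mem _ r
    · intro a b ha hb h1 h2
      exact add_mem h1 h2
    · intro a b ha hb h1 h2
      exact mul_mem h1 h2
  unfold td
  apply csSup_le'
  rintro d ⟨s, hs⟩
  have hs' : AlgebraicIndependent ℤ
      (fun j => Sum.elim x (fun j => algebraMap S K (c' j)) (s j)) := by
    rw [algebraicIndependent_iff]
    intro f hf
    exact hs f hf
  obtain ⟨a, b, s1, s2, hle, h1, h2⟩ := tower (S := S) (L := ℂ) (K := K) x c' hc'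
    (G : Set (MvPolynomial I ℂ)) hG (by
      intro g hg
      refine ⟨∑ β ∈ g.support.attach, monomial β.1 (c' (hc g hg β.1 (mem_support_iff.1 β.2)).choose),
        ?_⟩
      rw [map_sum]
      conv_rhs => rw [g.as_sum, ← Finset.sum_attach]
      refine Finset.sum_congr rfl fun β _ => ?_
      rw [map_monomial]
      congr 1
      exact (hc g hg β.1 (mem_support_iff.1 β.2)).choose_spec.symm) s hs'
  have ha : a ≤ td (Int.castRingHom ℂ) c := by
    refine le_td (s := s1) ?_
    intro f hf
    apply (algebraicIndependent_iff.1 (h1.map' (f := S.val) Subtype.val_injective)) f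
    exact hf
  have hb : b ≤ td i x := by
    refine le_td (s := s2) ?_
    intro f hf
    exact (algebraicIndependent_iff.1 h2) f hf
  unfold td at ha hb
  omega

end Pool.Agent.Helper9K9.ZU
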