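import Pool.Agent.Helper9K9.ZU.Loc

/-!
[GEN] irreducible closed subsets of the torus have generic points.
-/

set_option autoImplicit false

open MvPolynomial

namespace Pool.Agent.Helper9K9.ZU

open LocL

theorem gen : S_GEN := by
  intro ι _ A hA
  haveI : (idealOf A).IsPrime := hA.2
  refine ⟨FractionRing (MvPolynomial ι ℂ ⧸ idealOf A), inferInstance,
    ((algebraMap (MvPolynomial ι ℂ ⧸ idealOf A)
      (FractionRing (MvPolynomial ι ℂ ⧸ idealOf A))).comp
      (Ideal.Quotient.mk (idealOf A))).comp C,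
    fun j => Units.mk0 (algebraMap (MvPolynomial ι ℂ ⧸ idealOf A)
      (FractionRing (MvPolynomial ι ℂ ⧸ idealOf A)) (Ideal.Quotient.mk (idealOf A) (X j))) ?_,
    fun f => ?_⟩
  · intro h
    have h1 : Ideal.Quotient.mk (idealOf A) (X j) = 0 := by
      apply IsFractionRing.injective (MvPolynomial ι ℂ ⧸ idealOf A)
        (FractionRing (MvPolynomial ι ℂ ⧸ idealOf A))
      rw [h, map_zero]
    rw [Ideal.Quotient.eq_zero_iff_mem] at h1
    exact X_notMem hA j h1
  · set φ : MvPolynomial ι ℂ →+* FractionRing (MvPolynomial ι ℂ ⧸ idealOf A) :=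
      (algebraMap (MvPolynomial ι ℂ ⧸ idealOf A)
      (FractionRing (MvPolynomial ι ℂ ⧸ idealOf A))).comp
      (Ideal.Quotient.mk (idealOf A)) with hφ
    have h1 : ∀ f, eval₂ (φ.comp C) (fun j => φ (X j)) f = φ f := by
      intro f
      have : eval₂Hom (φ.comp C) (fun j => φ (X j)) = φ := by
        apply MvPolynomial.ringHom_ext
        · intro r
          rw [eval₂Hom_C]
          rfl
        · intro j
          rw [eval₂Hom_X']
      rw [← coe_eval₂Hom, this]
    have h2 : eval₂ (φ.comp C) (fun j => φ (X j)) f = 0 ↔ f ∈ idealOf A := by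
      rw [h1, hφ, RingHom.comp_apply, map_eq_zero_iff _ (IsFractionRing.injective _ _),
        Ideal.Quotient.eq_zero_iff_mem]
    rw [← h2]
    rfl

end Pool.Agent.Helper9K9.ZU
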