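import Pool.Agent.Helper9K9.ZU.Stm

/-!
Subvarieties of the complex torus and the Zilber-Pink property.
-/

set_option autoImplicit false

open MvPolynomial

namespace Pool.Agent.Helper9K9.ZU

variable {ι : Type}

/-- The closed subset of the torus defined by a set of polynomials. -/
def zeros (S : Set (MvPolynomial ι ℂ)) : Set (ι → ℂ) :=
  {x | (∀ j, x j ≠ 0) ∧ ∀ f ∈ S, eval x f = 0}

/-- The ideal of a set of points. -/
noncomputable def idealOf (A : Set (ι → ℂ)) : Ideal (MvPolynomial ι ℂ) :=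
  ⨅ x ∈ A, RingHom.ker (eval x : MvPolynomial ι ℂ →+* ℂ)

/-- Irreducible closed subvarieties of the torus. -/
def IsIrr (A : Set (ι → ℂ)) : Prop := (∃ S, A = zeros S) ∧ (idealOf A).IsPrime

/-- The dimension of an irreducible subvariety. -/
noncomputable def dimI (A : Set (ι → ℂ)) : ℕ :=
  Cardinal.toNat (Algebra.trdeg ℂ (MvPolynomial ι ℂ ⧸ idealOf A))

/-- The dimension of a subvariety. -/
noncomputable def dimension (V : Set (ι → ℂ)) : ℕ :=
  sSup {d | ∃ A, IsIrr A ∧ A ⊆ V ∧ dimI A = d}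

/-- The coset `{x | x ^ a = η ^ a for all a in M}`. -/
def coset [Fintype ι] (M : Submodule ℤ (ι → ℤ)) (η : ι → ℂ) : Set (ι → ℂ) :=
  {x | (∀ j, x j ≠ 0) ∧ ∀ a ∈ M, ∏ j, x j ^ a j = ∏ j, η j ^ a j}

/-- `coset M η` is a torsion coset of a subtorus. -/
def IsTorsionCoset (M : Submodule ℤ (ι → ℤ)) (η : ι → ℂ) : Prop :=
  (∀ (a : ι → ℤ) (m : ℤ), m ≠ 0 → m • a ∈ M → a ∈ M) ∧ ∃ m : ℕ, 0 < m ∧ ∀ j, η j ^ m = 1

/-- `A` is an irreducible component of `X`. -/
def IsComponent (A X : Set (ι → ℂ)) : Prop :=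
  IsIrr A ∧ A ⊆ X ∧ ∀ B, IsIrr B → A ⊆ B → B ⊆ X → B = A

/-- `A` is an atypical subvariety of `V`. -/
def Atypical [Fintype ι] (V A : Set (ι → ℂ)) : Prop :=
  ∃ (M : Submodule ℤ (ι → ℤ)) (η : ι → ℂ), IsTorsionCoset M η ∧
    IsComponent A (V ∩ coset M η) ∧ dimension V < dimI A + Module.finrank ℤ M

/-- `V` has only finitely many maximal atypical subvarieties. -/
def ZilberPink [Fintype ι] (V : Set (ι → ℂ)) : Prop :=
  {A | Atypical V A ∧ ∀ B, Atypical V B → A ⊆ B → B = A}.Finite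

/-- The `k`-th power of the line `x + y = 1`. -/
def line (k : ℕ) : Set (Fin k × Fin 2 → ℂ) :=
  {x | (∀ p, x p ≠ 0) ∧ ∀ g, x (g, 0) + x (g, 1) = 1}

/-- `x` is a generic point of `A` with coordinates in the field `K` -/
def IsGen (A : Set (ι → ℂ)) {K : Type} [Field K] (i : ℂ →+* K) (x : ι → Kˣ) : Prop :=
  ∀ f, f ∈ idealOf A ↔ eval₂ i (vl x) f = 0

/-- [GEN] irreducible sets have generic points -/
def S_GEN : Prop :=
  ∀ (ι : Type) [Fintype ι] (A : Set (ι → ℂ)), IsIrr A →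
    ∃ (K : Type) (_ : Field K) (i : ℂ →+* K) (x : ι → Kˣ), IsGen A i x

/-- [LOC] a point with coordinates in a field is generic in its locus -/
def S_LOC : Prop :=
  ∀ (ι : Type) [Fintype ι] (K : Type) [Field K] (i : ℂ →+* K) (x : ι → Kˣ),
    IsIrr (zeros {f | eval₂ i (vl x) f = 0}) ∧ IsGen (zeros {f | eval₂ i (vl x) f = 0}) i x

/-- [DIM] the dimension is the transcendence degree of a generic point -/
def S_DIM : Prop :=
  ∀ (ι : Type) [Fintype ι] (A : Set (ι → ℂ)) (K : Type) [Field K] (i : ℂ →+* K) (x : ι → Kˣ),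
    IsGen A i x → dimI A = td i (vl x)

/-- [DLT] proper irreducible subsets have smaller dimension -/
def S_DLT : Prop :=
  ∀ (ι : Type) [Fintype ι] (A B : Set (ι → ℂ)), IsIrr A → IsIrr B → A ⊆ B → A ≠ B →
    dimI A < dimI B

/-- [COMP] closed sets are finite unions of irreducible ones, and every irreducible subset is
contained in a component -/
def S_COMP : Prop :=
  ∀ (ι : Type) [Fintype ι] (S : Set (MvPolynomial ι ℂ)),
    {B | IsComponent B (zeros S)}.Finite ∧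
    ∀ A, IsIrr A → A ⊆ zeros S → ∃ B, IsComponent B (zeros S) ∧ A ⊆ B

/-- [TOR] the torsion coset of all relations of a point -/
def S_TOR : Prop :=
  ∀ (ι : Type) [Fintype ι] (A : Set (ι → ℂ)) (K : Type) [Field K] (i : ℂ →+* K) (x : ι → Kˣ),
    IsGen A i x → (∀ y ∈ A, ∀ j, y j ≠ 0) →
    (∃ η : ι → ℂ, IsTorsionCoset (rel x) η ∧ A ⊆ coset (rel x) η) ∧
    ∀ (M : Submodule ℤ (ι → ℤ)) (η : ι → ℂ), IsTorsionCoset M η → A ⊆ coset M η → M ≤ rel x

/-- [COS] cosets are closed -/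
def S_COS : Prop :=
  ∀ (ι : Type) [Fintype ι] (M : Submodule ℤ (ι → ℤ)) (η : ι → ℂ), (∀ j, η j ≠ 0) →
    ∃ S, coset M η = zeros S

/-- [LDIM] the power of the line -/
def S_LDIM : Prop :=
  ∀ k : ℕ, dimension (line k) = k

/-- [HYP] (assembly) -/
def S_HYP : Prop := (∀ k : ℕ, ZilberPink (line k)) → HypL ℂ

/-- [FIN] (assembly) -/
def S_FIN : Prop :=
  (∀ (I : Type) [Fintype I] (K : Type) [Field K] (i : ℂ →+* K) (x : I → Kˣ), Star ℂ I K i x) →
    ∀ (ι : Type) [Fintype ι] (S : Set (MvPolynomial ι ℂ)), ZilberPink (zeros S)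

end Pool.Agent.Helper9K9.ZU
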