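import Pool.Agent.Helper9K9.ZU.Geo
import Pool.Agent.Helper9K9.ZU.Basic

/-!
Basic facts about subvarieties of the torus.
-/

set_option autoImplicit false

open MvPolynomial

namespace Pool.Agent.Helper9K9.ZU

variable {ι : Type}

theorem mem_idealOf {A : Set (ι → ℂ)} {f : MvPolynomial ι ℂ} :
    f ∈ idealOf A ↔ ∀ x ∈ A, eval x f = 0 := by
  simp [idealOf, Submodule.mem_iInf, RingHom.mem_ker]

theorem idealOf_anti {A B : Set (ι → ℂ)} (h : A ⊆ B) : idealOf B ≤ idealOf A := by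
  intro f hf
  rw [mem_idealOf] at hf ⊢
  exact fun x hx => hf x (h hx)

theorem zeros_inter (S T : Set (MvPolynomial ι ℂ)) : zeros S ∩ zeros T = zeros (S ∪ T) := by
  ext x
  simp only [zeros, Set.mem_inter_iff, Set.mem_setOf_eq, Set.mem_union]
  constructor
  · rintro ⟨⟨h1, h2⟩, -, h3⟩
    exact ⟨h1, fun f hf => hf.elim (h2 f) (h3 f)⟩
  · rintro ⟨h1, h2⟩
    exact ⟨⟨h1, fun f hf => h2 f (Or.inl hf)⟩, h1, fun f hf => h2 f (Or.inr hf)⟩

theorem IsIrr.ne_zero {A : Set (ι → ℂ)} (h : IsIrr A) : ∀ y ∈ A, ∀ j, y j ≠ 0 := by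
  obtain ⟨⟨S, rfl⟩, -⟩ := h
  exact fun y hy => hy.1

/-- an irreducible set is determined by its ideal -/
theorem IsIrr.subset_of_ideal {A B : Set (ι → ℂ)} (hA : IsIrr A) (hB : IsIrr B)
    (h : idealOf B ≤ idealOf A) : A ⊆ B := by
  obtain ⟨⟨S, hS⟩, -⟩ := hB
  intro x hx
  rw [hS]
  refine ⟨hA.ne_zero x hx, fun f hf => ?_⟩
  have h1 : f ∈ idealOf B := by
    rw [mem_idealOf]
    intro y hy
    rw [hS] at hy
    exact hy.2 f hf
  exact mem_idealOf.1 (h h1) x hx

theorem line_eq (k : ℕ) : line k =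
    zeros (Set.range fun g : Fin k => (X (g, 0) + X (g, 1) - 1 :
      MvPolynomial (Fin k × Fin 2) ℂ)) := by
  ext x
  simp only [line, zeros, Set.mem_setOf_eq, Set.forall_mem_range]
  refine and_congr_right fun _ => forall_congr' fun g => ?_
  rw [map_sub, map_add, eval_X, eval_X, map_one, sub_eq_zero]

theorem IsTorsionCoset.ne_zero [Fintype ι] {M : Submodule ℤ (ι → ℤ)} {η : ι → ℂ}
    (h : IsTorsionCoset M η) : ∀ j, η j ≠ 0 := by
  obtain ⟨-, m, hm, h1⟩ := h
  intro j h0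
  have h2 := h1 j
  rw [h0, zero_pow hm.ne'] at h2
  exact zero_ne_one h2

/-- the polynomial of a relation -/
noncomputable def relPol [Fintype ι] (a : ι → ℤ) (m : ℕ) : MvPolynomial ι ℂ :=
  (∏ j, X j ^ (a j).toNat) ^ m - (∏ j, X j ^ (-a j).toNat) ^ m

theorem relPol_iff [Fintype ι] {K : Type} [Field K] (i : ℂ →+* K) (w : ι → Kˣ) (a : ι → ℤ)
    (m : ℕ) : eval₂ i (vl w) (relPol a m) = 0 ↔ mon w a ^ m = 1 := by
  have e1 : ∀ b : ι → ℕ, eval₂ i (vl w) (∏ j, X j ^ b j) =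
      ((∏ j, w j ^ b j : Kˣ) : K) := by
    intro b
    rw [eval₂_prod']
    simp only [eval₂_pow, eval₂_X, vl, Units.coe_prod, Units.val_pow_eq_pow_val]
  have e2 : mon w a = (∏ j, w j ^ (a j).toNat) / ∏ j, w j ^ (-a j).toNat := by
    unfold mon
    rw [← Finset.prod_div_distrib]
    refine Finset.prod_congr rfl fun j _ => ?_
    rw [← zpow_natCast, ← zpow_natCast, div_eq_mul_inv, ← zpow_sub]
    congr 1
    omega
  unfold relPol
  rw [eval₂_sub, eval₂_pow, eval₂_pow, e1, e1, sub_eq_zero, e2, div_pow, div_eq_one,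
    ← Units.val_pow_eq_pow_val, ← Units.val_pow_eq_pow_val]
  exact ⟨fun h => Units.ext h, fun h => congrArg Units.val h⟩

/-- the relations of a generic point depend only on the variety -/
theorem IsGen.mem_rel [Fintype ι] {A : Set (ι → ℂ)} {K : Type} [Field K] {i : ℂ →+* K}
    {x : ι → Kˣ} (h : IsGen A i x) (a : ι → ℤ) :
    a ∈ rel x ↔ ∃ m : ℕ, 0 < m ∧ relPol a m ∈ idealOf A := by
  refine exists_congr fun m => and_congr_right fun _ => ?_
  rw [h, relPol_iff]

theorem IsGen.rk_eq [Fintype ι] {A : Set (ι → ℂ)} {K K' : Type} [Field K] [Field K']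
    {i : ℂ →+* K} {i' : ℂ →+* K'} {x : ι → Kˣ} {x' : ι → K'ˣ} (h : IsGen A i x)
    (h' : IsGen A i' x') : rk x = rk x' := by
  have h1 : rel x = rel x' := by
    ext a
    rw [h.mem_rel, h'.mem_rel]
  rw [rk, rk, h1]

theorem finrank_le [Fintype ι] (M : Submodule ℤ (ι → ℤ)) :
    Module.finrank ℤ M ≤ Fintype.card ι := by
  refine (Submodule.finrank_le M).trans ?_
  rw [Module.finrank_fintype_fun_eq_card]

/-- the codimension of the torsion coset of all relations -/
theorem rk_add [Fintype ι] {K : Type} [Field K] (x : ι → Kˣ) :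
    rk x + Module.finrank ℤ (rel x) = Fintype.card ι := by
  have h1 := finrank_le (rel x)
  unfold rk
  omega

end Pool.Agent.Helper9K9.ZU
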