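import Pool.Agent.Helper9K9.ZU.Tan
import Pool.Agent.H135R2.VS.Der
import Pool.Agent.TH145.GC.Rows

/-!
[JAC] points of the power of the line which specialize to a point with independent gates have no
small defect.
-/

set_option autoImplicit false

open MvPolynomial

namespace Pool.Agent.Helper9K9.ZU

namespace JacL

/-- rows with a nonzero minor are independent -/
theorem ind_of_minor {R κ m : Type} [Field R] [Fintype κ] [DecidableEq κ]
    {w : κ → m → R} {σ : κ → m} (h : (Matrix.of fun i j => w i (σ j)).det ≠ 0) :
    LinearIndependent R w := by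
  rw [Fintype.linearIndependent_iff]
  intro g hg
  by_contra hcon
  push Not at hcon
  obtain ⟨i, hi⟩ := hcon
  apply h
  rw [← Matrix.exists_vecMul_eq_zero_iff]
  refine ⟨g, fun h => hi (congrFun h i), ?_⟩
  funext j
  have h1 := congrFun hg (σ j)
  rw [Finset.sum_apply] at h1
  rw [Matrix.vecMul, dotProduct]
  exact h1

/-- independent vectors which are orthogonal to independent vectors -/
theorem card_le_of_orth {R ι κ m : Type} [Field R] [Fintype ι] [Fintype κ] [Fintype m]
    {u : ι → m → R} {v : κ → m → R} (hu : LinearIndependent R u)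
    (hv : LinearIndependent R v) (h : ∀ i k, ∑ j, u i j * v k j = 0) :
    Fintype.card ι + Fintype.card κ ≤ Fintype.card m := by
  classical
  have h1 := Matrix.rank_add_rank_le_card_of_mul_eq_zero (A := Matrix.of u)
    (B := (Matrix.of v).transpose) (by
      ext i k
      rw [Matrix.mul_apply]
      exact h i k)
  have h2 : (Matrix.of u).rank = Fintype.card ι := LinearIndependent.rank_matrix hu
  have h3 : (Matrix.of v).rank = Fintype.card κ := LinearIndependent.rank_matrix hv
  rw [Matrix.rank_transpose, h2, h3] at h1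
  exact h1

/-- integer vectors which are independent over the integers are independent over every field of
characteristic zero -/
theorem ind_cast {L ι m : Type} [Field L] [CharZero L] [Fintype ι] {b : ι → m → ℤ}
    (hb : LinearIndependent ℤ b) : LinearIndependent L (fun i j => ((b i j : ℤ) : L)) := by
  classical
  have h1 : LinearIndependent ℚ (fun i j => ((b i j : ℤ) : ℚ)) := by
    rw [← LinearIndependent.iff_fractionRing (R := ℤ) (K := ℚ)]
    rw [Fintype.linearIndependent_iff] at hb ⊢
    intro g hg
    refine hb g ?_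
    funext j
    have h2 := congrFun hg j
    rw [Finset.sum_apply] at h2 ⊢
    simp only [Pi.smul_apply, zsmul_eq_mul, Pi.zero_apply, smul_eq_mul] at h2 ⊢
    exact_mod_cast h2
  obtain ⟨σ, hσ⟩ := Pool.Agent.TH145.GC.exists_minor _ h1
  refine ind_of_minor (σ := σ) ?_
  intro h0
  apply hσ
  have h2 : (Matrix.of fun i j => ((b i (σ j) : ℤ) : L))
      = (Matrix.of fun i j => ((b i (σ j) : ℤ) : ℚ)).map (algebraMap ℚ L) := by
    ext i j
    simp
  rw [h2, ← RingHom.mapMatrix_apply, ← RingHom.map_det, map_eq_zero_iff _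
    (algebraMap ℚ L).injective] at h0
  exact h0

/-- the relations of a point are relations of its specializations -/
theorem rel_le {F K L : Type} [Field F] [Field K] [Field L] {i : F →+* K} {l : F →+* L}
    {I : Type} [Fintype I] {y : I → Kˣ} {e : I → Lˣ}
    (h : ∀ f, eval₂ i (vl y) f = 0 → eval₂ l (vl e) f = 0) : rel y ≤ rel e := by
  rintro a ⟨m, hm, ha⟩
  refine ⟨m, hm, ?_⟩
  -- the equation of the relation
  have key : ∀ {K' : Type} [Field K'] (i' : F →+* K') (y' : I → K'ˣ),
      mon y' a ^ m = 1 ↔ eval₂ i' (vl y') (∏ j, X j ^ (m * (a j).toNat)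
        - ∏ j, X j ^ (m * (-a j).toNat)) = 0 := by
    intro K' _ i' y'
    have h1 : eval₂ i' (vl y') (∏ j, (X j : MvPolynomial I F) ^ (m * (a j).toNat)
        - ∏ j, X j ^ (m * (-a j).toNat))
        = ((∏ j, y' j ^ (m * (a j).toNat) : K'ˣ) : K') - (∏ j, y' j ^ (m * (-a j).toNat) : K'ˣ) := by
      rw [eval₂_sub, eval₂_prod, eval₂_prod, Units.coe_prod, Units.coe_prod]
      simp only [eval₂_pow, eval₂_X, Units.val_pow_eq_pow_val]
      rfl
    rw [h1, sub_eq_zero, Units.ext_iff.symm]
    have h2 : mon y' a ^ m = (∏ j, y' j ^ (m * (a j).toNat)) / ∏ j, y' j ^ (m * (-a j).toNat) := by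
      unfold mon
      rw [← Finset.prod_pow, ← Finset.prod_div_distrib]
      refine Finset.prod_congr rfl fun j _ => ?_
      rw [← zpow_natCast, ← zpow_mul, ← zpow_natCast, ← zpow_natCast, div_eq_mul_inv, ← zpow_sub]
      congr 1
      have h3 := Int.toNat_sub_toNat_neg (a j)
      push_cast
      rw [← mul_sub, h3, mul_comm]
    rw [h2, div_eq_one]
  rw [key l e]
  exact h _ ((key i y).1 ha)

section der
variable {F K : Type} [Field F] [Field K] [Algebra F K] (D : Derivation F K K)

/-- the logarithmic derivative -/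
noncomputable def lg : Kˣ →* Multiplicative K where
  toFun u := Multiplicative.ofAdd (D u / u)
  map_one' := by
    rw [Units.val_one, Derivation.map_one_eq_zero, zero_div, ofAdd_zero]
  map_mul' u v := by
    rw [← ofAdd_add]
    congr 1
    have hu := u.ne_zero
    have hv := v.ne_zero
    rw [Units.val_mul, Derivation.leibniz]
    simp only [smul_eq_mul]
    field_simp
    ring

theorem lg_mon {I : Type} [Fintype I] (y : I → Kˣ) (a : I → ℤ) :
    Multiplicative.toAdd (lg D (mon y a)) = ∑ p, (a p : K) * (D (y p) / y p) := by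
  unfold mon
  rw [map_prod, toAdd_prod]
  refine Finset.sum_congr rfl fun p _ => ?_
  rw [map_zpow, toAdd_zpow, zsmul_eq_mul]
  rfl

theorem lg_rel [CharZero K] {I : Type} [Fintype I] {y : I → Kˣ} {a : I → ℤ} (h : a ∈ rel y) :
    ∑ p, (a p : K) * (D (y p) / y p) = 0 := by
  obtain ⟨m, hm, h⟩ := h
  have h1 : lg D (mon y a) ^ m = 1 := by rw [← map_pow, h, map_one]
  have h2 := congrArg Multiplicative.toAdd h1
  rw [toAdd_pow, toAdd_one, lg_mon, nsmul_eq_mul] at h2
  exact (mul_eq_zero.1 h2).resolve_left (by exact_mod_cast hm.ne')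

end der

end JacL

open JacL in
theorem jac : S_JAC := by
  classical
  intro F K L _ _ _ _ i l k y e hsp hy hfree
  let _ := i.toAlgebra
  have : CharZero K := charZero_of_injective_algebraMap i.injective
  have : CharZero L := charZero_of_injective_ringHom l.injective
  have hrel : rel y ≤ rel e := rel_le hsp
  -- a basis of the relations
  let b := Module.Free.chooseBasis ℤ (rel y)
  let B := Module.Free.ChooseBasisIndex ℤ (rel y)
  let bv : B → (Fin k × Fin 2) → ℤ := fun j => (b j : Fin k × Fin 2 → ℤ)
  have hbv : LinearIndependent ℤ bv :=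
    b.linearIndependent.map' (rel y).subtype (Submodule.ker_subtype _)
  -- the vectors
  let wv : ∀ (K' : Type) [Field K'] (y' : Fin k × Fin 2 → K'ˣ), Fin k ⊕ B → (Fin k × Fin 2) → K' :=
    fun K' _ y' => Sum.elim (fun g => gv y' g) (fun j p => ((bv j p : ℤ) : K'))
  have hwe : LinearIndependent L (wv L e) := by
    rw [Fintype.linearIndependent_iff]
    intro c hc
    rw [Fintype.sum_sum_type] at hc
    simp only [wv, Sum.elim_inl, Sum.elim_inr] at hc
    have h1 : ∑ j : B, c (Sum.inr j) • (fun p => ((bv j p : ℤ) : L)) ∈ relK e := by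
      refine Submodule.sum_mem _ fun j _ => Submodule.smul_mem _ _ (Submodule.subset_span ?_)
      exact ⟨bv j, hrel (b j).2, rfl⟩
    have h2 : ∑ g, c (Sum.inl g) • gv e g ∈ relK e := by
      rw [eq_neg_of_add_eq_zero_left hc]
      exact Submodule.neg_mem _ h1
    have h3 := hfree (fun g => c (Sum.inl g)) h2
    have h4 : ∀ g, c (Sum.inl g) = 0 := fun g => congrFun h3 g
    simp only [h4, zero_smul, Finset.sum_const_zero, zero_add] at hc
    have h5 := (Fintype.linearIndependent_iff.1 (ind_cast (L := L) hbv))
      (fun j => c (Sum.inr j)) hc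
    rintro (g | j)
    · exact h4 g
    · exact h5 j
  obtain ⟨σ, hσ⟩ := Pool.Agent.TH145.GC.exists_minor _ hwe
  -- the minor as a polynomial
  let P : Matrix (Fin k ⊕ B) (Fin k ⊕ B) (MvPolynomial (Fin k × Fin 2) F) :=
    Matrix.of fun a c => Sum.elim (fun g => if (σ c).1 = g then X (σ c) else 0)
      (fun j => C ((bv j (σ c) : ℤ) : F)) a
  have hP : ∀ (K' : Type) [Field K'] (i' : F →+* K') (y' : Fin k × Fin 2 → K'ˣ),
      eval₂ i' (vl y') P.det = (Matrix.of fun a c => wv K' y' a (σ c)).det := by
    intro K' _ i' y'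
    change (eval₂Hom i' (vl y')) P.det = _
    rw [RingHom.map_det]
    congr 1
    ext a c
    rw [RingHom.mapMatrix_apply, Matrix.map_apply]
    rcases a with g | j
    · simp only [P, wv, Matrix.of_apply, Sum.elim_inl, gv]
      by_cases h : (σ c).1 = g
      · rw [if_pos h, if_pos h, coe_eval₂Hom, eval₂_X]
        rfl
      · rw [if_neg h, if_neg h, map_zero]
    · simp only [P, wv, Matrix.of_apply, Sum.elim_inr]
      rw [coe_eval₂Hom, eval₂_C, map_intCast]
  have hwy : LinearIndependent K (wv K y) := by
    refine ind_of_minor (σ := σ) ?_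
    intro h
    apply hσ
    rw [← hP L l e]
    apply hsp
    rw [hP K i y]
    exact h
  -- independent coordinates and the derivations
  obtain ⟨s, hs⟩ := TanL.exists_td i.injective (vl y)
  have hs' : AlgebraicIndependent F (fun a => vl y (s a)) := by
    rw [algebraicIndependent_iff]
    intro f hf
    exact hs f hf
  have hD : ∀ a : Fin (td i (vl y)), ∃ D : Derivation F K K,
      ∀ c, D (vl y (s c)) = if c = a then 1 else 0 := fun a =>
    Pool.Agent.H135R2.VS.exists_der hs' _
  choose D hD using hD
  have hu : LinearIndependent K (fun (a : Fin (td i (vl y))) (p : Fin k × Fin 2) =>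
      D a (y p) / (y p : K)) := by
    rw [Fintype.linearIndependent_iff]
    intro c hc a
    have h1 := congrFun hc (s a)
    rw [Finset.sum_apply, Finset.sum_eq_single a] at h1
    · rw [Pi.smul_apply, smul_eq_mul, Pi.zero_apply] at h1
      have h2 : D a (y (s a)) = 1 := (hD a a).trans (if_pos rfl)
      rw [h2] at h1
      exact (mul_eq_zero.1 h1).resolve_right (one_div_ne_zero (y (s a)).ne_zero)
    · intro a' _ ha'
      have h2 : D a' (y (s a)) = 0 := (hD a' a).trans (if_neg (Ne.symm ha'))
      rw [Pi.smul_apply, h2, zero_div, smul_zero]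
    · intro h; exact absurd (Finset.mem_univ _) h
  have horth : ∀ (a : Fin (td i (vl y))) (c : Fin k ⊕ B),
      ∑ p, D a (y p) / (y p : K) * wv K y c p = 0 := by
    intro a c
    rcases c with g | j
    · simp only [wv, Sum.elim_inl]
      rw [Fintype.sum_prod_type, Finset.sum_eq_single g]
      · rw [Fin.sum_univ_two]
        unfold gv
        rw [if_pos rfl, if_pos rfl, div_mul_cancel₀ _ (y (g, 0)).ne_zero,
          div_mul_cancel₀ _ (y (g, 1)).ne_zero, ← map_add, hy g, Derivation.map_one_eq_zero]
      · intro g' _ hg'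
        refine Finset.sum_eq_zero fun q _ => ?_
        unfold gv
        rw [if_neg hg', mul_zero]
      · intro h; exact absurd (Finset.mem_univ _) h
    · simp only [wv, Sum.elim_inr]
      rw [← lg_rel (D a) (b j).2]
      exact Finset.sum_congr rfl fun p _ => mul_comm _ _
  have h1 := card_le_of_orth hu hwy horth
  have h2 : Module.finrank ℤ (rel y) = Fintype.card B :=
    Module.finrank_eq_card_chooseBasisIndex ℤ (rel y)
  rw [Fintype.card_fin, Fintype.card_sum, Fintype.card_fin] at h1
  unfold rk
  rw [h2]
  omega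

end Pool.Agent.Helper9K9.ZU
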