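import Pool.Agent.Helper9K9.ZU.GeoBasic
import Pool.Agent.Helper9K9.ZU.Gen
import Pool.Agent.Helper9K9.ZU.Dim

/-!
[LDIM] the dimension of the powers of the line.
-/

set_option autoImplicit false

open MvPolynomial

namespace Pool.Agent.Helper9K9.ZU

theorem td_line_le {K : Type} [Field K] {i : ℂ →+* K} {k : ℕ} {x : Fin k × Fin 2 → Kˣ}
    (hx : OnL x) : td i (vl x) ≤ k := by
  obtain ⟨s, hs⟩ := exists_td i.injective (vl x)
  have h1 : Function.Injective fun j => (s j).1 := by
    intro a b hab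
    by_contra hne
    have h2 : s a ≠ s b := fun h => hne (hs.inj (by simp only [h]))
    have h3 : vl x (s a) + vl x (s b) = 1 := by
      have key : ∀ p q : Fin k × Fin 2, p.1 = q.1 → p ≠ q → vl x p + vl x q = 1 := by
        rintro ⟨g, u⟩ ⟨g', u'⟩ h6 h7
        simp only at h6
        subst h6
        have h5 := hx g
        fin_cases u <;> fin_cases u'
        · exact absurd rfl h7
        · exact h5
        · rw [add_comm]
          exact h5
        · exact absurd rfl h7
      exact key _ _ hab h2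
    have h4 := hs (X a + X b - 1) (by
      rw [eval₂_sub, eval₂_add, eval₂_X, eval₂_X, eval₂_one, h3, sub_self])
    have h5 := congrArg (eval (fun _ => (0 : ℂ))) h4
    simp at h5
  simpa using Fintype.card_le_of_injective _ h1

theorem ldim : S_LDIM := by
  intro k
  have hle : ∀ d ∈ {d | ∃ A, IsIrr A ∧ A ⊆ line k ∧ dimI A = d}, d ≤ k := by
    rintro d ⟨A, hA, hAL, rfl⟩
    obtain ⟨K, _, i, x, hx⟩ := gen _ A hA
    rw [dim _ A K i x hx]
    refine td_line_le fun g => ?_
    have h1 : (X (g, 0) + X (g, 1) - 1 : MvPolynomial (Fin k × Fin 2) ℂ) ∈ idealOf A := by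
      rw [mem_idealOf]
      intro y hy
      rw [map_sub, map_add, eval_X, eval_X, map_one, (hAL hy).2 g, sub_self]
    have h2 := (hx _).1 h1
    rw [eval₂_sub, eval₂_add, eval₂_X, eval₂_X, eval₂_one, sub_eq_zero] at h2
    exact h2
  refine le_antisymm (csSup_le' hle) ?_
  let K := FractionRing (MvPolynomial (Fin k) ℂ)
  let i : ℂ →+* K := (algebraMap (MvPolynomial (Fin k) ℂ) K).comp C
  have hinj : Function.Injective (algebraMap (MvPolynomial (Fin k) ℂ) K) :=
    IsFractionRing.injective _ _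
  have h0 : ∀ g : Fin k, algebraMap (MvPolynomial (Fin k) ℂ) K (X g) ≠ 0 := by
    intro g
    rw [Ne, map_eq_zero_iff _ hinj]
    exact X_ne_zero g
  have h1 : ∀ g : Fin k, algebraMap (MvPolynomial (Fin k) ℂ) K (1 - X g) ≠ 0 := by
    intro g h
    rw [map_eq_zero_iff _ hinj] at h
    have h5 := congrArg (eval (fun _ => (0 : ℂ))) h
    simp at h5
  let x : Fin k × Fin 2 → Kˣ := fun p => if p.2 = 0 then Units.mk0 _ (h0 p.1)
    else Units.mk0 _ (h1 p.1)
  have hx0 : ∀ g, vl x (g, 0) = algebraMap (MvPolynomial (Fin k) ℂ) K (X g) := fun g => rfl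
  have hx1 : ∀ g, vl x (g, 1) = algebraMap (MvPolynomial (Fin k) ℂ) K (1 - X g) := fun g => rfl
  have hI : Indep i (fun j : Fin k => vl x (j, 0)) := by
    intro f hf
    simp only [hx0] at hf
    have h2 : eval₂ i (fun j : Fin k => algebraMap (MvPolynomial (Fin k) ℂ) K (X j)) f =
        algebraMap (MvPolynomial (Fin k) ℂ) K f := by
      have h3 : eval₂Hom i (fun j : Fin k => algebraMap (MvPolynomial (Fin k) ℂ) K (X j)) =
          algebraMap (MvPolynomial (Fin k) ℂ) K := by
        apply MvPolynomial.ringHom_ext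
        · intro r
          rw [eval₂Hom_C]
          rfl
        · intro j
          rw [eval₂Hom_X']
      exact RingHom.congr_fun h3 f
    rw [h2, map_eq_zero_iff _ hinj] at hf
    exact hf
  obtain ⟨hirr, hgen⟩ := loc _ K i x
  have h3 : k ≤ dimI (zeros {f | eval₂ i (vl x) f = 0}) := by
    rw [dim _ _ K i x hgen]
    exact le_td (s := fun j => (j, 0)) hI
  refine h3.trans (le_csSup ⟨k, hle⟩ ⟨_, hirr, ?_, rfl⟩)
  rw [line_eq]
  rintro y ⟨hy, hy'⟩
  refine ⟨hy, ?_⟩
  rintro _ ⟨g, rfl⟩
  refine hy' _ ?_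
  simp only [Set.mem_ofPred_eq, eval₂_sub, eval₂_add, eval₂_X, eval₂_one, hx0, hx1, ← map_add]
  rw [add_sub_cancel, map_one, sub_self]

end Pool.Agent.Helper9K9.ZU
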