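import Pool.Agent.Helper9K9.ZU.Geo

/-!
[LOC] Nullstellensatz in the torus: a prime ideal without variables is the ideal of its zeros.
-/

set_option autoImplicit false

open MvPolynomial

namespace Pool.Agent.Helper9K9.ZU

namespace LocL

variable {ι : Type}

theorem mem_idealOf {A : Set (ι → ℂ)} {f : MvPolynomial ι ℂ} :
    f ∈ idealOf A ↔ ∀ x ∈ A, eval x f = 0 := by
  unfold idealOf
  simp [RingHom.mem_ker]

/-- closed sets are recovered from their ideals -/
theorem zeros_idealOf (S : Set (MvPolynomial ι ℂ)) :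
    zeros (idealOf (zeros S) : Set (MvPolynomial ι ℂ)) = zeros S := by
  apply Set.Subset.antisymm
  · rintro x ⟨hx, h⟩
    refine ⟨hx, fun f hf => h f ?_⟩
    exact mem_idealOf.2 fun y hy => hy.2 f hf
  · rintro x hx
    exact ⟨hx.1, fun f hf => mem_idealOf.1 hf x hx⟩

theorem zeros_idealOf' {A : Set (ι → ℂ)} (hA : ∃ S, A = zeros S) :
    zeros (idealOf A : Set (MvPolynomial ι ℂ)) = A := by
  obtain ⟨S, rfl⟩ := hA
  exact zeros_idealOf S

theorem idealOf_anti {A B : Set (ι → ℂ)} (h : A ⊆ B) : idealOf B ≤ idealOf A :=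
  fun _ hf => mem_idealOf.2 fun x hx => mem_idealOf.1 hf x (h hx)

theorem zeros_anti {S T : Set (MvPolynomial ι ℂ)} (h : S ⊆ T) : zeros T ⊆ zeros S :=
  fun _ hx => ⟨hx.1, fun f hf => hx.2 f (h hf)⟩

/-- Nullstellensatz in the torus -/
theorem idealOf_zeros [Fintype ι] (P : Ideal (MvPolynomial ι ℂ)) [hP : P.IsPrime]
    (hX : ∀ j, X j ∉ P) : idealOf (zeros (P : Set (MvPolynomial ι ℂ))) = P := by
  apply le_antisymm
  · intro f hf
    have h1 : f * ∏ j, X j ∈ P := by
      rw [← MvPolynomial.IsPrime.vanishingIdeal_zeroLocus (K := ℂ) P]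
      rw [mem_vanishingIdeal_iff]
      intro x hx
      rw [mem_zeroLocus_iff] at hx
      rw [map_mul, map_prod]
      by_cases h0 : ∀ j, x j ≠ 0
      · have h2 : eval x f = 0 := mem_idealOf.1 hf x ⟨h0, fun g hg => by
          have := hx g hg
          rwa [← coe_aeval_eq_eval] ⟩
        have h3 : aeval x f = 0 := by
          rw [← coe_aeval_eq_eval] at h2
          exact h2
        rw [h3, zero_mul]
      · push Not at h0
        obtain ⟨j, hj⟩ := h0
        have h3 : ∏ j, aeval x (X j : MvPolynomial ι ℂ) = 0 :=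
          Finset.prod_eq_zero (Finset.mem_univ j) (by rw [aeval_X, hj])
        rw [h3, mul_zero]
    rcases hP.mem_or_mem h1 with h | h
    · exact h
    · exfalso
      obtain ⟨j, _, hj⟩ := (hP.prod_mem_iff).1 h
      exact hX j hj
  · intro f hf
    exact mem_idealOf.2 fun x hx => hx.2 f hf

/-- the variables are not in the ideal of an irreducible set -/
theorem X_notMem {A : Set (ι → ℂ)} (hA : IsIrr A) (j : ι) : X j ∉ idealOf A := by
  obtain ⟨⟨S, rfl⟩, hp⟩ := hA
  intro h
  apply hp.ne_top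
  rw [Ideal.eq_top_iff_one]
  refine mem_idealOf.2 fun x hx => ?_
  exfalso
  have := mem_idealOf.1 h x hx
  rw [eval_X] at this
  exact hx.1 j this

theorem isIrr_zeros [Fintype ι] (P : Ideal (MvPolynomial ι ℂ)) [hP : P.IsPrime]
    (hX : ∀ j, X j ∉ P) : IsIrr (zeros (P : Set (MvPolynomial ι ℂ))) :=
  ⟨⟨_, rfl⟩, by rw [idealOf_zeros P hX]; exact hP⟩

end LocL

open LocL

theorem loc : S_LOC := by
  intro ι _ K _ i x
  set P : Ideal (MvPolynomial ι ℂ) := RingHom.ker (eval₂Hom i (vl x)) with hP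
  have hS : {f | eval₂ i (vl x) f = 0} = (P : Set (MvPolynomial ι ℂ)) := by
    ext f
    rw [Set.mem_ofPred_eq, SetLike.mem_coe, hP, RingHom.mem_ker, coe_eval₂Hom]
  have hPp : P.IsPrime := RingHom.ker_isPrime _
  have hX : ∀ j, X j ∉ P := by
    intro j h
    rw [hP, RingHom.mem_ker, coe_eval₂Hom, eval₂_X] at h
    exact (x j).ne_zero h
  rw [hS]
  refine ⟨isIrr_zeros P hX, fun f => ?_⟩
  rw [idealOf_zeros P hX, hP, RingHom.mem_ker, coe_eval₂Hom]

end Pool.Agent.Helper9K9.ZU
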