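import Pool.Agent.Helper9K9.ZU.Spec
import Pool.Agent.Helper9K9.ZU.Basic

/-!
[MONO] rank minus transcendence degree is monotone
-/

set_option autoImplicit false

open MvPolynomial

namespace Pool.Agent.Helper9K9.ZU

namespace MonoL

theorem indep_iff {F K : Type} [Field F] [Field K] (i : F →+* K) {J : Type} (y : J → K) :
    letI := i.toAlgebra
    Indep i y ↔ AlgebraicIndependent F y := by
  letI := i.toAlgebra
  rw [algebraicIndependent_iff]
  rfl

theorem mon_mon {K : Type} [Field K] {I J : Type} [Fintype I] [Fintype J] (γ : I → Kˣ)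
    (β : J → I → ℤ) (b : J → ℤ) :
    mon (fun j => mon γ (β j)) b = mon γ (∑ j, b j • β j) := by
  classical
  have h : ∀ s : Finset J, ∏ j ∈ s, (mon γ (β j)) ^ b j = mon γ (∑ j ∈ s, b j • β j) := by
    intro s
    induction s using Finset.induction_on with
    | empty => rw [Finset.prod_empty, Finset.sum_empty, mon_zero]
    | insert a s ha ih => rw [Finset.prod_insert ha, Finset.sum_insert ha, mon_add, ih, mon_zsmul]
  exact h Finset.univ

/-- the rank of a tuple in the group generated by another one -/
theorem rk_mon_le {K : Type} [Field K] {I J : Type} [Fintype I] [Fintype J] (γ : I → Kˣ)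
    (β : J → I → ℤ) : rk (fun j => mon γ (β j)) ≤ rk γ := by
  classical
  let φ : (J → ℤ) →ₗ[ℤ] (I → ℤ) :=
    { toFun := fun b => ∑ j, b j • β j
      map_add' := fun b c => by simp only [Pi.add_apply, add_smul, Finset.sum_add_distrib]
      map_smul' := fun n b => by
        simp only [Pi.smul_apply, smul_eq_mul, mul_smul, Finset.smul_sum, RingHom.id_apply] }
  let ψ : (J → ℤ) →ₗ[ℤ] ((I → ℤ) ⧸ rel γ) := (rel γ).mkQ.comp φ
  have hker : LinearMap.ker ψ = rel (fun j => mon γ (β j)) := by
    ext b
    rw [LinearMap.mem_ker, LinearMap.comp_apply, Submodule.mkQ_apply, Submodule.Quotient.mk_eq_zero,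
      mem_rel, mem_rel]
    simp only [mon_mon]
    rfl
  have h1 := Submodule.finrank_quotient_add_finrank (LinearMap.ker ψ)
  rw [ψ.quotKerEquivRange.finrank_eq] at h1
  have h2 := Submodule.finrank_quotient_add_finrank (rel γ)
  have h3 := Submodule.finrank_le (LinearMap.range ψ)
  rw [hker, Module.finrank_fintype_fun_eq_card] at h1
  rw [Module.finrank_fintype_fun_eq_card] at h2
  unfold rk
  omega

/-- adding elements without relations -/
theorem rk_sum {K : Type} [Field K] {J : Type} [Fintype J] {e : ℕ} (y : J → Kˣ)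
    (z : Fin e → Kˣ) (h : ∀ b ∈ rel (Sum.elim y z), ∀ j, b (Sum.inr j) = 0) :
    rk y + e ≤ rk (Sum.elim y z) := by
  have h1 : rel (Sum.elim y z) ≤ (rel y).map (ext0 Sum.inl) := by
    intro b hb
    have h2 : ext0 Sum.inl (fun j => b (Sum.inl j)) = b := by
      funext p
      rcases p with p | p
      · rw [ext0_apply Sum.inl_injective]
      · rw [ext0_off _ _ (by simp), h b hb]
    refine ⟨fun j => b (Sum.inl j), ?_, h2⟩
    obtain ⟨m, hm, h3⟩ := hb
    refine ⟨m, hm, ?_⟩
    rw [← h2, mon_ext0 Sum.inl_injective] at h3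
    exact h3
  have h2 := Submodule.finrank_mono h1
  have h3 : Module.finrank ℤ ((rel y).map (ext0 (Sum.inl : J → J ⊕ Fin e))) =
      Module.finrank ℤ (rel y) :=
    ((Submodule.equivMapOfInjective _ (ext0_inj Sum.inl_injective) _).finrank_eq).symm
  have h4 := rk_add y
  have h5 := rk_add (Sum.elim y z)
  rw [Fintype.card_sum, Fintype.card_fin] at h5
  omega

end MonoL

open MonoL

theorem mono : S_MONO := by
  intro F K _ _ i I J _ _ γ α
  classical
  letI := i.toAlgebra
  set y : J → Kˣ := fun j => mon γ (α j) with hy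
  let M := AlgebraicIndependent.matroid F K
  -- a basis of `y`
  obtain ⟨Y, hY⟩ := M.exists_isBasis (Set.range (vl y)) (by simp [M])
  have hYX : Y ⊆ Set.range (vl y) ∪ Set.range (vl γ) := hY.subset.trans Set.subset_union_left
  obtain ⟨B, hB, hYB⟩ := hY.indep.subset_isBasis_of_subset hYX (by simp [M])
  have hfX : (Set.range (vl y) ∪ Set.range (vl γ)).Finite :=
    (Set.finite_range _).union (Set.finite_range _)
  have hBf : B.Finite := hfX.subset hB.subset
  have hYf : Y.Finite := hBf.subset hYB
  have hZ : B \ Y ⊆ Set.range (vl γ) := by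
    rintro b ⟨hb, hbY⟩
    rcases hB.subset hb with h | h
    · exfalso
      apply hbY
      have h1 : M.Indep (insert b Y) := hB.indep.subset (Set.insert_subset hb hYB)
      exact hY.mem_of_insert_indep h h1
    · exact h
  -- cardinalities
  have hYtd : Y.ncard ≤ td i (vl y) := by
    haveI : Finite Y := hYf.to_subtype
    let e := (Finite.equivFin Y).symm
    have hc : Nat.card Y = Y.ncard := rfl
    choose r hr using fun v : Y => hY.subset v.2
    have h1 : Indep i (fun j => vl y (r (e j))) := by
      rw [indep_iff]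
      have h2 : AlgebraicIndependent F (fun v : Y => (v : K)) := hY.indep
      have h3 := h2.comp e e.injective
      have h4 : (fun j => vl y (r (e j))) = (fun v : Y => (v : K)) ∘ e := by
        funext j
        rw [Function.comp_apply, hr]
      rw [h4]
      exact h3
    exact le_td (s := fun j => r (e j)) h1
  have hBtd : td i (vl γ) ≤ B.ncard := by
    obtain ⟨s, hs⟩ := exists_td i.injective (vl γ)
    have hinj := hs.inj
    have h1 : M.Indep (Set.range fun j => vl γ (s j)) := by
      rw [indep_iff] at hs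
      exact hs.to_subtype_range
    have h2 : (Set.range fun j => vl γ (s j)) ⊆ Set.range (vl y) ∪ Set.range (vl γ) := by
      rintro _ ⟨j, rfl⟩
      exact Or.inr ⟨_, rfl⟩
    have h3 := h1.encard_le_eRk_of_subset h2
    rw [← hB.encard_eq_eRk, ← hBf.cast_ncard_eq, ← (Set.finite_range _).cast_ncard_eq] at h3
    have h4 : (Set.range fun j => vl γ (s j)).ncard = td i (vl γ) := by
      rw [← Set.image_univ, Set.ncard_image_of_injective _ hinj, Set.ncard_univ, Nat.card_fin]
    rw [h4] at h3
    exact_mod_cast h3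
  have hZc : (B \ Y).ncard = B.ncard - Y.ncard := Set.ncard_sdiff hYB hYf
  have hYB' : Y.ncard ≤ B.ncard := Set.ncard_le_ncard hYB hBf
  -- the tuple
  let e : Fin (B \ Y).ncard ≃ ↑(B \ Y) := by
    haveI : Finite ↑(B \ Y) := (hBf.sdiff).to_subtype
    exact (Finite.equivFin ↑(B \ Y)).symm
  choose r hr using fun v : ↑(B \ Y) => hZ v.2
  let z : Fin (B \ Y).ncard → Kˣ := fun j => γ (r (e j))
  have hz : ∀ j, (z j : K) = e j := fun j => hr (e j)
  have hrel : ∀ b ∈ rel (Sum.elim y z), ∀ j, b (Sum.inr j) = 0 := by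
    rintro b ⟨m, hm, hb⟩ j0
    by_contra hne
    let A := Algebra.adjoin F (B \ {(z j0 : K)})
    let G : Subgroup Kˣ :=
      { carrier := {u | IsAlgebraic A (u : K)}
        mul_mem' := fun {u v} hu hv => by
          have h1 : IsAlgebraic A (u : K) := hu
          have h2 : IsAlgebraic A (v : K) := hv
          have h3 : IsAlgebraic A ((u * v : Kˣ) : K) := by
            rw [Units.val_mul]
            exact h1.mul h2
          exact h3
        one_mem' := by
          have h3 : IsAlgebraic A ((1 : Kˣ) : K) := by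
            rw [Units.val_one]
            exact isAlgebraic_one
          exact h3
        inv_mem' := fun {u} hu => by
          have h1 : IsAlgebraic A (u : K) := hu
          have h3 : IsAlgebraic A ((u⁻¹ : Kˣ) : K) := by
            rw [Units.val_inv_eq_inv_val]
            exact h1.inv
          exact h3 }
    have hG : ∀ u : Kˣ, u ∈ G ↔ IsAlgebraic A (u : K) := fun u => Iff.rfl
    have hroot : ∀ (u : Kˣ) (n : ℕ), 0 < n → u ^ n ∈ G → u ∈ G := by
      intro u n hn h
      rw [hG] at h ⊢
      rw [Units.val_pow_eq_pow_val] at h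
      exact h.of_pow hn
    have hclo : ∀ a : K, a ∈ M.closure (B \ {(z j0 : K)}) ↔ IsAlgebraic A a := by
      intro a
      rw [AlgebraicIndependent.matroid_closure_eq]
      rfl
    have hz0 : (z j0 : K) ∈ B := by
      rw [hz]
      exact (e j0).2.1
    have hz0Y : (z j0 : K) ∉ Y := by
      rw [hz]
      exact (e j0).2.2
    have hnot : z j0 ∉ G := by
      rw [hG, ← hclo]
      exact hB.indep.notMem_closure_sdiff_of_mem hz0
    have hyG : ∀ j, y j ∈ G := by
      intro j
      rw [hG, ← hclo]
      have h1 : (y j : K) ∈ M.closure Y := hY.subset_closure ⟨j, rfl⟩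
      refine M.closure_subset_closure ?_ h1
      intro a ha
      refine ⟨hYB ha, ?_⟩
      rintro rfl
      exact hz0Y ha
    have hzG : ∀ j, j ≠ j0 → z j ∈ G := by
      intro j hj
      rw [hG, ← hclo]
      refine M.subset_closure _ (by simp [M]) ?_
      refine ⟨by rw [hz]; exact (e j).2.1, ?_⟩
      intro h
      rw [Set.mem_singleton_iff, hz, hz] at h
      exact hj (e.injective (Subtype.ext h))
    apply hnot
    have h1 : mon (Sum.elim y z) b ∈ G := hroot _ m hm (by rw [hb]; exact G.one_mem)
    have h2 : mon (Sum.elim y z) b = (∏ j, y j ^ b (Sum.inl j)) * ∏ j, z j ^ b (Sum.inr j) := by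
      unfold mon
      rw [Fintype.prod_sum_type]
      rfl
    rw [h2, ← Finset.mul_prod_erase _ _ (Finset.mem_univ j0)] at h1
    have h3 : (∏ j, y j ^ b (Sum.inl j)) ∈ G := G.prod_mem fun j _ => G.zpow_mem (hyG j) _
    have h4 : (∏ j ∈ Finset.univ.erase j0, z j ^ b (Sum.inr j)) ∈ G :=
      G.prod_mem fun j hj => G.zpow_mem (hzG j (Finset.ne_of_mem_erase hj)) _
    have h5 : z j0 ^ b (Sum.inr j0) ∈ G := by
      have h6 := (G.mul_mem_cancel_left h3).1 h1
      exact (G.mul_mem_cancel_right h4).1 h6
    rcases Int.natAbs_eq (b (Sum.inr j0)) with h6 | h6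
    · rw [h6, zpow_natCast] at h5
      exact hroot _ _ (Int.natAbs_pos.2 hne) h5
    · rw [h6, zpow_neg, zpow_natCast, G.inv_mem_iff] at h5
      exact hroot _ _ (Int.natAbs_pos.2 hne) h5
  have h1 := rk_sum y z hrel
  have h2 : rk (Sum.elim y z) ≤ rk γ := by
    have h3 : Sum.elim y z = fun p => mon γ (Sum.elim α (fun j => Pi.single (r (e j)) 1) p) := by
      funext p
      rcases p with p | p
      · rfl
      · simp only [Sum.elim_inr, mon_single, zpow_one, z]
    rw [h3]
    exact rk_mon_le γ _
  omega

end Pool.Agent.Helper9K9.ZU
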