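import Pool.Agent.Helper9K9.ZU.Stm

/-!
[PICK] independent gates.
-/

set_option autoImplicit false

open MvPolynomial

namespace Pool.Agent.Helper9K9.ZU

namespace Pick

variable {K : Type} [Field K] {N : ℕ} (γ : Fin N → Kˣ)

theorem mon_sum {J : Type} [Fintype J] (s : Finset J) (a : J → Fin N → ℤ) (c : J → ℤ) :
    mon γ (∑ j ∈ s, c j • a j) = ∏ j ∈ s, mon γ (a j) ^ c j := by
  classical
  induction s using Finset.induction_on with
  | empty => rw [Finset.sum_empty, mon_zero, Finset.prod_empty]
  | insert j s hj ih => rw [Finset.sum_insert hj, Finset.prod_insert hj, mon_add, ih, mon_zsmul]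

/-- the functional of an integer vector -/
def fn (a : Fin N → ℤ) : (Fin N → K) →ₗ[K] K where
  toFun v := ∑ i, (a i : K) * v i
  map_add' v w := by simp only [Pi.add_apply, mul_add, Finset.sum_add_distrib]
  map_smul' c v := by
    simp only [Pi.smul_apply, smul_eq_mul, RingHom.id_apply, Finset.mul_sum]
    exact Finset.sum_congr rfl fun i _ => by ring

/-- the vectors orthogonal to the relations -/
def ann : Submodule K (Fin N → K) where
  carrier := {v | ∀ a ∈ rel γ, ∑ i, (a i : K) * v i = 0}
  add_mem' {v w} hv hw a ha := by
    simp only [Pi.add_apply, mul_add, Finset.sum_add_distrib, hv a ha, hw a ha, add_zero]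
  zero_mem' a ha := by simp
  smul_mem' c v hv a ha := by
    have h3 : ∀ i, (a i : K) * (c • v) i = c * ((a i : K) * v i) := fun i => by
      rw [Pi.smul_apply, smul_eq_mul]; ring
    simp only [h3, ← Finset.mul_sum, hv a ha, mul_zero]

theorem rk_le : rk γ ≤ Module.finrank K (ann γ) := by
  classical
  -- a basis of the relations
  let b := Module.Free.chooseBasis ℤ (rel γ)
  let Ψ : (Fin N → K) →ₗ[K] (Module.Free.ChooseBasisIndex ℤ (rel γ) → K) :=
    LinearMap.pi fun j => fn (b j : Fin N → ℤ)
  have h1 : LinearMap.ker Ψ ≤ ann γ := by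
    intro v hv a ha
    have h2 : ∀ j, ∑ i, (((b j : rel γ) : Fin N → ℤ) i : K) * v i = 0 := fun j => congrFun hv j
    have h3 : (⟨a, ha⟩ : rel γ) = ∑ j, b.repr ⟨a, ha⟩ j • b j := (b.sum_repr _).symm
    have h4 : ∀ i, a i = ∑ j, b.repr ⟨a, ha⟩ j * ((b j : rel γ) : Fin N → ℤ) i := by
      intro i
      have h5 := congrFun (congrArg (Subtype.val) h3) i
      rw [Submodule.coe_sum, Finset.sum_apply] at h5
      exact h5
    simp only [h4, Int.cast_sum, Int.cast_mul, Finset.sum_mul]
    rw [Finset.sum_comm]
    refine Finset.sum_eq_zero fun j _ => ?_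
    simp only [mul_assoc]
    rw [← Finset.mul_sum, h2, mul_zero]
  have h2 := LinearMap.finrank_range_add_finrank_ker Ψ
  have h3 : Module.finrank K (LinearMap.range Ψ) ≤ Module.finrank ℤ (rel γ) := by
    refine (Submodule.finrank_le _).trans ?_
    rw [Module.finrank_fintype_fun_eq_card, Module.finrank_eq_card_chooseBasisIndex]
  have h4 := Submodule.finrank_mono h1
  rw [Module.finrank_fin_fun] at h2
  unfold rk
  rw [Fintype.card_fin]
  omega

/-- the functional of a gate -/
def gf (α β : Fin N → ℤ) : (Fin N → K) →ₗ[K] K :=
  (mon γ α : K) • fn α + (mon γ β : K) • fn β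

theorem gf_apply (α β : Fin N → ℤ) (v : Fin N → K) :
    gf γ α β v = (mon γ α : K) * ∑ i, (α i : K) * v i + (mon γ β : K) * ∑ i, (β i : K) * v i :=
  rfl

end Pick

open Pick in
theorem pick : S_PICK := by
  classical
  intro K _ _ N γ
  let W := ann γ
  -- the functionals of the gates on `W`
  let s : Set (Module.Dual K W) :=
    {φ | ∃ α β : Fin N → ℤ, (mon γ α : K) + mon γ β = 1 ∧ φ = (gf γ α β).comp W.subtype}
  obtain ⟨b, hbs, hspan, hli⟩ := exists_linearIndependent K s
  have : Finite b := hli.finite
  let _ : Fintype b := Fintype.ofFinite b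
  let k := Fintype.card b
  let e : Fin k ≃ b := (Fintype.equivFin b).symm
  have hb : ∀ g : Fin k, ∃ α β : Fin N → ℤ, (mon γ α : K) + mon γ β = 1 ∧
      (e g : Module.Dual K W) = (gf γ α β).comp W.subtype := fun g => hbs (e g).2
  choose A B hAB hφ using hb
  refine ⟨k, fun p => if p.2 = 0 then A p.1 else B p.1, ?_, ?_, ?_⟩
  · intro g
    exact hAB g
  · -- the kernel of the chosen functionals
    let Ψ : W →ₗ[K] (Fin k → K) := LinearMap.pi fun g => (e g : Module.Dual K W)
    have h1 : Module.finrank K (LinearMap.ker Ψ) ≤ Module.finrank K (lam γ) := by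
      have h2 : ∀ w : LinearMap.ker Ψ, ((w : W) : Fin N → K) ∈ lam γ := by
        intro w
        have hw : ∀ g, (e g : Module.Dual K W) (w : W) = 0 := fun g => congrFun w.2 g
        refine ⟨(w : W).2, fun α β h => ?_⟩
        have h3 : ((gf γ α β).comp W.subtype : Module.Dual K W) ∈ Submodule.span K s :=
          Submodule.subset_span ⟨α, β, h, rfl⟩
        rw [← hspan] at h3
        have h4 : ∀ φ ∈ Submodule.span K b, φ (w : W) = 0 := by
          intro φ hφ'
          induction hφ' using Submodule.span_induction with
          | mem x hx =>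
            have := hw (e.symm ⟨x, hx⟩)
            rw [Equiv.apply_symm_apply] at this
            exact this
          | zero => rfl
          | add x y _ _ hx hy => rw [LinearMap.add_apply, hx, hy, add_zero]
          | smul a x _ hx => rw [LinearMap.smul_apply, hx, smul_zero]
        exact h4 _ h3
      let Θ : LinearMap.ker Ψ →ₗ[K] lam γ :=
        { toFun := fun w => ⟨((w : W) : Fin N → K), h2 w⟩
          map_add' := fun _ _ => rfl
          map_smul' := fun _ _ => rfl }
      refine LinearMap.finrank_le_finrank_of_injective (f := Θ) ?_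
      intro w w' h
      have h3 := congrArg Subtype.val h
      exact Subtype.ext (Subtype.ext h3)
    have h2 := LinearMap.finrank_range_add_finrank_ker Ψ
    have h3 : Module.finrank K (LinearMap.range Ψ) ≤ k := by
      refine (Submodule.finrank_le _).trans ?_
      rw [Module.finrank_fin_fun]
    have h4 := rk_le γ
    change rk γ ≤ Module.finrank K W at h4
    omega
  · intro c hc
    set α : Fin k × Fin 2 → Fin N → ℤ := fun p => if p.2 = 0 then A p.1 else B p.1 with hα
    -- the linear map from the vectors on the gates
    let Θ : (Fin k × Fin 2 → K) →ₗ[K] Module.Dual K W :=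
      { toFun := fun x => ∑ p, x p • (fn (α p)).comp W.subtype
        map_add' := fun x y => by simp only [Pi.add_apply, add_smul, Finset.sum_add_distrib]
        map_smul' := fun a x => by
          simp only [Pi.smul_apply, smul_eq_mul, mul_smul, ← Finset.smul_sum, RingHom.id_apply] }
    have hΘ : ∀ x, Θ x = ∑ p, x p • (fn (α p)).comp W.subtype := fun x => rfl
    have h1 : ∀ x ∈ relK (fun p => mon γ (α p)), Θ x = 0 := by
      intro x hx
      induction hx using Submodule.span_induction with
      | mem x hx =>
        obtain ⟨a, ha, rfl⟩ := hx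
        have h2 : ∑ p, a p • α p ∈ rel γ := by
          obtain ⟨m, hm, h⟩ := ha
          refine ⟨m, hm, ?_⟩
          rw [mon_sum]
          exact h
        rw [hΘ]
        apply LinearMap.ext
        intro w
        have h3 := w.2 _ h2
        rw [LinearMap.sum_apply, LinearMap.zero_apply]
        have h4 : ∀ i, (((∑ p, a p • α p : Fin N → ℤ) i : ℤ) : K) = ∑ p, (a p : K) * (α p i : K) := by
          intro i
          rw [Finset.sum_apply, Int.cast_sum]
          exact Finset.sum_congr rfl fun p _ => by
            rw [Pi.smul_apply, smul_eq_mul, Int.cast_mul]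
        simp only [h4, Finset.sum_mul] at h3
        rw [Finset.sum_comm] at h3
        rw [← h3]
        refine Finset.sum_congr rfl fun p _ => ?_
        simp only [mul_assoc]
        rw [← Finset.mul_sum]
        rfl
      | zero => exact map_zero Θ
      | add x y _ _ hx hy => rw [map_add, hx, hy, add_zero]
      | smul a x _ hx => rw [map_smul, hx, smul_zero]
    have h2 := h1 _ hc
    have h3 : ∀ g : Fin k, Θ (gv (fun p => mon γ (α p)) g) = (e g : Module.Dual K W) := by
      intro g
      rw [hφ g, hΘ, Fintype.sum_prod_type]
      rw [Finset.sum_eq_single g]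
      · rw [Fin.sum_univ_two]
        apply LinearMap.ext
        intro w
        have e0 : gv (fun p => mon γ (α p)) g (g, 0) = (mon γ (A g) : K) := by
          unfold gv
          rw [if_pos rfl]
          rfl
        have e1 : gv (fun p => mon γ (α p)) g (g, 1) = (mon γ (B g) : K) := by
          unfold gv
          rw [if_pos rfl]
          rfl
        rw [e0, e1]
        rfl
      · intro g' _ hg'
        refine Finset.sum_eq_zero fun q _ => ?_
        have : gv (fun p => mon γ (α p)) g (g', q) = (0 : K) := by
          unfold gv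
          rw [if_neg hg']
        rw [this, zero_smul]
      · intro h; exact absurd (Finset.mem_univ _) h
    rw [map_sum] at h2
    simp only [map_smul, h3] at h2
    have h4 : LinearIndependent K (fun g : Fin k => (e g : Module.Dual K W)) :=
      hli.comp e e.injective
    funext g
    exact (Fintype.linearIndependent_iff.1 h4) c h2 g

end Pool.Agent.Helper9K9.ZU
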