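import Pool.Agent.Helper9K9.ZU.GeoBasic

/-!
[SPEC] ranks of a tuple and of a part of it under specialization
-/

set_option autoImplicit false

open MvPolynomial

namespace Pool.Agent.Helper9K9.ZU

/-- extension by zero -/
noncomputable def ext0 {I J : Type} (τ : I → J) : (I → ℤ) →ₗ[ℤ] (J → ℤ) :=
  Function.ExtendByZero.linearMap ℤ τ

theorem ext0_apply {I J : Type} {τ : I → J}
    (hτ : Function.Injective τ) (a : I → ℤ) (i : I) : ext0 τ a (τ i) = a i :=
  hτ.extend_apply a 0 i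

theorem ext0_off {I J : Type} {τ : I → J}
    (a : I → ℤ) (j : J) (hj : j ∉ Set.range τ) : ext0 τ a j = 0 :=
  Function.extend_apply' (a : I → ℤ) (0 : J → ℤ) j fun ⟨i, hi⟩ => hj ⟨i, hi⟩

theorem ext0_inj {I J : Type} {τ : I → J}
    (hτ : Function.Injective τ) : Function.Injective (ext0 τ) := by
  intro a b h
  funext i
  rw [← ext0_apply hτ a i, h, ext0_apply hτ]

theorem mon_ext0 {K : Type} [Field K] {I J : Type} [Fintype I] [Fintype J]
    {τ : I → J} (hτ : Function.Injective τ) (γ : J → Kˣ) (a : I → ℤ) :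
    mon γ (ext0 τ a) = mon (fun i => γ (τ i)) a := by
  unfold mon
  symm
  apply Fintype.prod_of_injective τ hτ
  · intro j hj
    rw [ext0_off a j hj, zpow_zero]
  · intro i
    rw [ext0_apply hτ]

theorem finrank_sup_inf {J : Type} [Fintype J] (A B : Submodule ℤ (J → ℤ)) :
    Module.finrank ℤ ↥(A ⊔ B) + Module.finrank ℤ ↥(A ⊓ B) =
      Module.finrank ℤ A + Module.finrank ℤ B := by
  have h := Submodule.rank_sup_add_rank_inf_eq A B
  rw [← Module.finrank_eq_rank, ← Module.finrank_eq_rank, ← Module.finrank_eq_rank,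
    ← Module.finrank_eq_rank] at h
  exact_mod_cast h

theorem spec : S_SPEC := by
  intro K K' _ _ I J _ _ γ γ' τ hτ hle
  let B : Submodule ℤ (J → ℤ) := (rel (fun i => γ' (τ i))).map (ext0 τ)
  have hB : Module.finrank ℤ B = Module.finrank ℤ (rel (fun i => γ' (τ i))) :=
    ((Submodule.equivMapOfInjective (ext0 τ) (ext0_inj hτ) _).finrank_eq).symm
  have hC : Module.finrank ℤ ((rel (fun i => γ (τ i))).map (ext0 τ)) =
      Module.finrank ℤ (rel (fun i => γ (τ i))) :=
    ((Submodule.equivMapOfInjective (ext0 τ) (ext0_inj hτ) _).finrank_eq).symm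
  have h1 : rel γ ⊔ B ≤ rel γ' := by
    refine sup_le hle ?_
    rintro _ ⟨a, ⟨m, hm, ha⟩, rfl⟩
    exact ⟨m, hm, by rw [mon_ext0 hτ]; exact ha⟩
  have h2 : rel γ ⊓ B ≤ (rel (fun i => γ (τ i))).map (ext0 τ) := by
    rintro _ ⟨⟨m, hm, ha⟩, a, -, rfl⟩
    refine ⟨a, ⟨m, hm, ?_⟩, rfl⟩
    rw [mon_ext0 hτ] at ha
    exact ha
  have h3 := Submodule.finrank_mono h1
  have h4 := Submodule.finrank_mono h2
  have h5 := finrank_sup_inf (rel γ) B
  have h6 := rk_add γ
  have h7 := rk_add γ'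
  have h8 := rk_add (fun i => γ (τ i))
  have h9 := rk_add (fun i => γ' (τ i))
  omega

end Pool.Agent.Helper9K9.ZU
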