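import Pool.Agent.Helper9K9.ZU.Basic

/-!
Assembly: the main property for all complex tuples.
-/

set_option autoImplicit false

open MvPolynomial

namespace Pool.Agent.Helper9K9.ZU

/-- independence over a bigger ring of coefficients -/
theorem td_comp_ring {F G K : Type} [Field F] [CommRing G] [Field K] (u : G →+* F)
    (hu : Function.Injective u) (i : F →+* K) {I : Type} [Fintype I] (y : I → K) :
    td i y ≤ td (i.comp u) y := by
  obtain ⟨s, hs⟩ := exists_td i.injective y
  have : Nontrivial G := u.domain_nontrivial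
  refine le_td (s := s) ?_
  intro f hf
  have h1 : eval₂ i (fun j => y (s j)) (map u f) = 0 := by
    rw [eval₂_map]
    exact hf
  have h2 := hs _ h1
  exact (map_injective u hu) (by rw [h2, map_zero])

/-- the coefficients of a finite set of polynomials -/
theorem exists_coeffs {I : Type} (G : Finset (MvPolynomial I ℂ)) :
    ∃ (q : ℕ) (c : Fin q → ℂˣ), ∀ g ∈ G, ∀ β, g.coeff β ≠ 0 → ∃ j, g.coeff β = c j := by
  classical
  let T : Finset ℂ := G.biUnion fun g => g.support.image fun β => g.coeff β
  have hT : ∀ a ∈ T, a ≠ 0 := by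
    intro a ha
    simp only [T, Finset.mem_biUnion, Finset.mem_image] at ha
    obtain ⟨g, _, β, hβ, rfl⟩ := ha
    exact mem_support_iff.1 hβ
  refine ⟨T.card, fun j => Units.mk0 (T.equivFin.symm j : ℂ) (hT _ (T.equivFin.symm j).2), ?_⟩
  intro g hg β hβ
  have h1 : g.coeff β ∈ T := by
    simp only [T, Finset.mem_biUnion, Finset.mem_image]
    exact ⟨g, hg, β, mem_support_iff.2 hβ, rfl⟩
  exact ⟨T.equivFin ⟨_, h1⟩, by simp⟩

theorem star (core : S_CORE) (spec : S_SPEC) (en : S_END) (fa : S_FA) (fb : S_FB) : S_STAR := by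
  intro hyp I _ K _ i x
  classical
  have hK : CharZero K := charZero_of_injective_ringHom i.injective
  -- generators of the ideal
  obtain ⟨G, hG⟩ := (inferInstance : IsNoetherianRing (MvPolynomial I ℂ)).noetherian
    (RingHom.ker (eval₂Hom i (vl x)))
  have hG' : ∀ f, eval₂ i (vl x) f = 0 ↔ f ∈ Ideal.span (G : Set (MvPolynomial I ℂ)) := by
    intro f
    have h1 : f ∈ RingHom.ker (eval₂Hom i (vl x)) ↔
        f ∈ Ideal.span (G : Set (MvPolynomial I ℂ)) := by
      rw [← hG]
    rw [RingHom.mem_ker, coe_eval₂Hom] at h1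
    exact h1
  obtain ⟨q, c, hc⟩ := exists_coeffs G
  obtain ⟨σ, t, ht⟩ := en q (fun j => (c j : ℂ))
  -- the tuple with the constants
  let z : I ⊕ Fin q → Kˣ := Sum.elim x fun j => Units.map i.toMonoidHom (c j)
  have hz : vl z = Sum.elim (vl x) (fun j => i (c j)) := by
    funext j
    rcases j with j | j <;> rfl
  have h1 := fa q _ (fun j => (c j : ℂ)) σ t ht K i I (vl x)
  have h2 := fb q (fun j => (c j : ℂ)) K i I (vl x) G hG' hc
  rw [← hz] at h1 h2
  have htd : td (Int.castRingHom K) (vl z) ≤ td (i.comp σ) (vl z) := h2.trans h1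
  obtain ⟨H, hH0, hH⟩ := core ℂ hyp K (i.comp σ) (I ⊕ Fin q) z htd
  -- substitution of the constants
  let φ : MvPolynomial (I ⊕ Fin q) ℂ →+* MvPolynomial I ℂ :=
    eval₂Hom (C.comp σ) (Sum.elim X fun j => C (c j : ℂ))
  have hφ : ∀ (K' : Type) [Field K'] (i' : ℂ →+* K') (ξ : I → K'ˣ)
      (f : MvPolynomial (I ⊕ Fin q) ℂ), eval₂ i' (vl ξ) (φ f) =
        eval₂ (i'.comp σ) (vl (Sum.elim ξ fun j => Units.map i'.toMonoidHom (c j))) f := by
    intro K' _ i' ξ f
    have h3 : (eval₂Hom i' (vl ξ)).comp φ = eval₂Hom (i'.comp σ)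
        (vl (Sum.elim ξ fun j => Units.map i'.toMonoidHom (c j))) := by
      apply MvPolynomial.ringHom_ext
      · intro a
        simp [φ]
      · intro j
        rcases j with j | j
        · simp [φ, vl]
        · simp [φ, vl]
    exact RingHom.congr_fun h3 f
  refine ⟨φ H, ?_, ?_⟩
  · rw [hφ]
    exact hH0
  · intro K' _ i' ξ hsp hlt
    rw [hφ]
    refine hH K' (i'.comp σ) (Sum.elim ξ fun j => Units.map i'.toMonoidHom (c j)) ?_ ?_
    · intro f hf
      rw [← hφ]
      refine hsp _ ?_
      rw [hφ]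
      exact hf
    · have hz' : vl (Sum.elim ξ fun j => Units.map i'.toMonoidHom (c j)) =
          Sum.elim (vl ξ) (fun j => i' (c j)) := by
        funext j
        rcases j with j | j <;> rfl
      have h4 := fa q _ (fun j => (c j : ℂ)) σ t ht K' i' I (vl ξ)
      rw [← hz'] at h4
      have h5 : td (i.comp σ) (vl z) ≤ td (Int.castRingHom ℂ) (fun j => (c j : ℂ)) + td i (vl x) := by
        refine le_trans ?_ h2
        have h6 := td_comp_ring (Int.castRingHom ℂ) (RingHom.injective_int _) (i.comp σ) (vl z)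
        have h7 : (i.comp σ).comp (Int.castRingHom ℂ) = Int.castRingHom K := RingHom.ext_int _ _
        rwa [h7] at h6
      have hrel : rel z ≤ rel (Sum.elim ξ fun j => Units.map i'.toMonoidHom (c j)) := by
        rintro a ⟨m, hm, ha⟩
        refine ⟨m, hm, ?_⟩
        -- write the relation as a polynomial relation
        let P : MvPolynomial (I ⊕ Fin q) ℂ :=
          (∏ j, X j ^ (a j).toNat) ^ m - (∏ j, X j ^ (-a j).toNat) ^ m
        have hP : ∀ (K₁ : Type) [Field K₁] (i₁ : ℂ →+* K₁) (w : I ⊕ Fin q → K₁ˣ),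
            eval₂ i₁ (vl w) P = 0 ↔ mon w a ^ m = 1 := by
          intro K₁ _ i₁ w
          have e1 : ∀ b : I ⊕ Fin q → ℕ, eval₂ i₁ (vl w) (∏ j, X j ^ b j) =
              ((∏ j, w j ^ b j : K₁ˣ) : K₁) := by
            intro b
            rw [eval₂_prod']
            simp only [eval₂_pow, eval₂_X, vl, Units.coe_prod, Units.val_pow_eq_pow_val]
          have e2 : mon w a = (∏ j, w j ^ (a j).toNat) / ∏ j, w j ^ (-a j).toNat := by
            unfold mon
            rw [← Finset.prod_div_distrib]
            refine Finset.prod_congr rfl fun j _ => ?_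
            rw [← zpow_natCast, ← zpow_natCast, div_eq_mul_inv, ← zpow_sub]
            congr 1
            omega
          simp only [P]
          rw [eval₂_sub, eval₂_pow, eval₂_pow, e1, e1, sub_eq_zero, e2, div_pow, div_eq_one,
            ← Units.val_pow_eq_pow_val, ← Units.val_pow_eq_pow_val]
          exact ⟨fun h => Units.ext h, fun h => congrArg Units.val h⟩
        refine (hP K' (i'.comp σ) _).1 ?_
        rw [← hφ]
        refine hsp _ ?_
        rw [hφ]
        exact (hP K (i.comp σ) z).2 ha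
      have h6 := spec K K' I (I ⊕ Fin q) z
        (Sum.elim ξ fun j => Units.map i'.toMonoidHom (c j)) Sum.inl Sum.inl_injective hrel
      have h7 : (fun j => z (Sum.inl j)) = x := rfl
      have h8 : (fun j : I => (Sum.elim ξ fun j => Units.map i'.toMonoidHom (c j) :
        I ⊕ Fin q → K'ˣ) (Sum.inl j)) = ξ := rfl
      rw [h7, h8] at h6
      omega

end Pool.Agent.Helper9K9.ZU
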