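import Pool.Agent.Helper9K9.ZU.Stm

/-!
[TAN] the dimension of the tangent space; basic lemmas on the transcendence degree `td`.
-/

set_option autoImplicit false

open MvPolynomial

namespace Pool.Agent.Helper9K9.ZU

namespace TanL

section
variable {F K : Type} [CommRing F] [Field K] {i : F →+* K}

theorem inj_of_indep [Nontrivial F] {J : Type} {y : J → K} (h : Indep i y) :
    Function.Injective y := by
  intro a b hab
  have h1 : (X a - X b : MvPolynomial J F) = 0 := h _ (by
    rw [eval₂_sub, eval₂_X, eval₂_X, hab, sub_self])
  exact X_injective (sub_eq_zero.1 h1)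

theorem indep_comp {J J' : Type} {y : J → K} (h : Indep i y) {t : J' → J}
    (ht : Function.Injective t) : Indep i (fun j => y (t j)) := by
  intro f hf
  have h1 := h (rename t f) (by rw [eval₂_rename]; exact hf)
  exact (map_eq_zero_iff _ (rename_injective t ht)).1 h1

theorem indep_empty (hi : Function.Injective i) {J : Type} [IsEmpty J] (y : J → K) :
    Indep i y := by
  intro f hf
  rw [eq_C_of_isEmpty f] at hf ⊢
  rw [eval₂_C] at hf
  rw [(map_eq_zero_iff i hi).1 hf, C_0]

theorem td_bdd [Nontrivial F] {I : Type} [Fintype I] (y : I → K) :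
    BddAbove {d : ℕ | ∃ s : Fin d → I, Indep i (fun j => y (s j))} := by
  refine ⟨Fintype.card I, ?_⟩
  rintro d ⟨s, hs⟩
  have h1 := inj_of_indep hs
  have h2 : Function.Injective s := fun a b hab => h1 (by
    change y (s a) = y (s b)
    rw [hab])
  have h3 := Fintype.card_le_of_injective s h2
  rwa [Fintype.card_fin] at h3

theorem le_td [Nontrivial F] {I : Type} [Fintype I] {y : I → K} {d : ℕ} {s : Fin d → I}
    (h : Indep i (fun j => y (s j))) : d ≤ td i y :=
  le_csSup (td_bdd y) ⟨s, h⟩

theorem exists_td [Nontrivial F] (hi : Function.Injective i) {I : Type} [Fintype I] (y : I → K) :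
    ∃ s : Fin (td i y) → I, Indep i (fun j => y (s j)) :=
  Nat.sSup_mem (s := {d : ℕ | ∃ s : Fin d → I, Indep i (fun j => y (s j))})
    ⟨0, fun j => j.elim0, indep_empty hi _⟩ (td_bdd y)

theorem le_td' [Nontrivial F] {I : Type} [Fintype I] {y : I → K} {J : Type} [Fintype J]
    {s : J → I} (h : Indep i (fun j => y (s j))) : Fintype.card J ≤ td i y := by
  have h1 : Indep i (fun j => y (s ((Fintype.equivFin J).symm j))) :=
    indep_comp h (Fintype.equivFin J).symm.injective
  exact le_td h1

end

/-- a polynomial the derivative of which with respect to a variable vanishes does not depend on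
that variable -/
theorem exists_rename {J : Type} {f : MvPolynomial (Option J) ℤ} (h : pderiv none f = 0) :
    ∃ g : MvPolynomial J ℤ, rename some g = f := by
  classical
  refine exists_rename_eq_of_vars_subset_range f some (Option.some_injective J) ?_
  intro a ha
  rcases a with _ | a
  · exfalso
    obtain ⟨d, hd, hd'⟩ := (mem_vars none).1 ha
    have h1 : d = (d - Finsupp.single none 1) + Finsupp.single none 1 := by
      rw [tsub_add_cancel_of_le]
      rw [Finsupp.single_le_iff]
      exact Nat.one_le_iff_ne_zero.2 (Finsupp.mem_support_iff.1 hd')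
    have h2 := coeff_pderiv (i := none) f (d - Finsupp.single none 1)
    rw [h, coeff_zero, ← h1] at h2
    rcases mul_eq_zero.1 h2.symm with h3 | h3
    · exact (mem_support_iff.1 hd) h3
    · have h4 : ((d - Finsupp.single none 1 : Option J →₀ ℕ) none : ℤ) + 1 ≠ 0 :=
        Nat.cast_add_one_ne_zero _
      exact h4 h3
  · exact ⟨a, rfl⟩

theorem degreeOf_pderiv {J : Type} (f : MvPolynomial (Option J) ℤ) (n : ℕ)
    (h : f.totalDegree ≤ n + 1) : (pderiv none f).totalDegree ≤ n := by
  refine Finset.sup_le fun m hm => ?_
  rw [mem_support_iff, coeff_pderiv] at hm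
  have h1 : m + Finsupp.single none 1 ∈ f.support := by
    rw [mem_support_iff]
    intro h2
    rw [h2, zero_mul] at hm
    exact hm rfl
  have h2 := le_totalDegree h1
  rw [Finsupp.sum_add_index' (fun _ => rfl) (fun _ _ _ => rfl),
    Finsupp.sum_single_index rfl] at h2
  omega

/-- a simple equation -/
theorem exists_simple {K : Type} [Field K] [CharZero K] {J : Type} (y : Option J → K)
    (hy : Indep (Int.castRingHom K) (fun j => y (some j))) (n : ℕ) :
    ∀ f : MvPolynomial (Option J) ℤ, f ≠ 0 → f.totalDegree ≤ n →
      eval₂ (Int.castRingHom K) y f = 0 → ∃ g : MvPolynomial (Option J) ℤ,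
        eval₂ (Int.castRingHom K) y g = 0 ∧ eval₂ (Int.castRingHom K) y (pderiv none g) ≠ 0 := by
  have key : ∀ f : MvPolynomial (Option J) ℤ, f ≠ 0 → eval₂ (Int.castRingHom K) y f = 0 →
      pderiv none f ≠ 0 := by
    intro f hf h0 h
    obtain ⟨g, rfl⟩ := exists_rename h
    rw [eval₂_rename] at h0
    have h1 := hy g h0
    rw [h1, map_zero] at hf
    exact hf rfl
  induction n with
  | zero =>
    intro f hf hd h0
    exfalso
    have h1 := key f hf h0
    rw [Nat.le_zero, totalDegree_eq_zero_iff_eq_C] at hd
    rw [hd, pderiv_C] at h1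
    exact h1 rfl
  | succ n ih =>
    intro f hf hd h0
    by_cases h : eval₂ (Int.castRingHom K) y (pderiv none f) = 0
    · exact ih _ (key f hf h0) (degreeOf_pderiv f n hd) h
    · exact ⟨f, h0, h⟩

end TanL

open TanL in
theorem tanle : S_TAN := by
  classical
  intro K _ _ I _ z
  have hi : Function.Injective (Int.castRingHom K) := RingHom.injective_int _
  obtain ⟨s, hs⟩ := exists_td hi (vl z)
  have hsinj : Function.Injective s := fun a b hab => inj_of_indep hs (by
    change vl z (s a) = vl z (s b)
    rw [hab])
  let Φ : tan z →ₗ[K] (Fin (td (Int.castRingHom K) (vl z)) → K) :=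
    { toFun := fun v a => (v : I → K) (s a)
      map_add' := fun _ _ => rfl
      map_smul' := fun _ _ => rfl }
  have h1 : Function.Injective Φ := by
    rw [← LinearMap.ker_eq_bot, LinearMap.ker_eq_bot']
    intro v hv
    have hv' : ∀ a, (v : I → K) (s a) = 0 := fun a => congrFun hv a
    apply Subtype.ext
    funext j
    change (v : I → K) j = 0
    by_cases hj : ∃ a, s a = j
    · obtain ⟨a, rfl⟩ := hj
      exact hv' a
    · let σ : Option (Fin (td (Int.castRingHom K) (vl z))) → I := fun o => o.elim j s
      have hσ : Function.Injective σ := by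
        intro a b hab
        rcases a with _ | a <;> rcases b with _ | b
        · rfl
        · exact absurd ⟨b, hab.symm⟩ hj
        · exact absurd ⟨a, hab⟩ hj
        · exact congrArg some (hsinj hab)
      have hdep : ¬ Indep (Int.castRingHom K) (fun o => vl z (σ o)) := by
        intro h
        have h2 := le_td' h
        rw [Fintype.card_option, Fintype.card_fin] at h2
        omega
      unfold Indep at hdep
      push Not at hdep
      obtain ⟨f, hf0, hf⟩ := hdep
      obtain ⟨g, hg, hg'⟩ := exists_simple (fun o => vl z (σ o)) hs _ f hf le_rfl hf0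
      have h3 := v.2 (rename σ g) (by rw [eval₂_rename]; exact hg)
      have h4 : ∀ i : I, i ≠ j →
          (v : I → K) i * eval₂ (Int.castRingHom K) (vl z) (pderiv i (rename σ g)) = 0 := by
        intro i hij
        by_cases hi' : ∃ o, σ o = i
        · obtain ⟨o, rfl⟩ := hi'
          rcases o with _ | a
          · exact absurd rfl hij
          · change (v : I → K) (s a) * _ = 0
            rw [hv' a, zero_mul]
        · rw [pderiv_eq_zero_of_notMem_vars, eval₂_zero, mul_zero]
          intro h5
          have h6 := vars_rename σ g h5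
          obtain ⟨o, _, ho⟩ := Finset.mem_image.1 h6
          exact hi' ⟨o, ho⟩
      rw [Finset.sum_eq_single j (fun i _ hij => h4 i hij)
        (fun h => absurd (Finset.mem_univ _) h)] at h3
      have h5 : pderiv j (rename σ g) = rename σ (pderiv none g) :=
        pderiv_rename hσ none g
      rw [h5, eval₂_rename] at h3
      exact (mul_eq_zero.1 h3).resolve_right hg'
  have h2 := LinearMap.finrank_le_finrank_of_injective h1
  rwa [Module.finrank_fin_fun] at h2

end Pool.Agent.Helper9K9.ZU
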