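import Pool.Agent.Helper9K9.ZU.Geo

/-!
[TOR] the torsion coset of all relations of a point.
-/

set_option autoImplicit false

open MvPolynomial

namespace Pool.Agent.Helper9K9.ZU

namespace TorL

variable {ι : Type} [Fintype ι]

/-- the equation of a relation -/
noncomputable def eqn (a : ι → ℤ) (c : ℂ) : MvPolynomial ι ℂ :=
  ∏ j, X j ^ (a j).toNat - C c * ∏ j, X j ^ (-a j).toNat

theorem eval_eqn {K : Type} [Field K] (i : ℂ →+* K) {z : ι → K} (hz : ∀ j, z j ≠ 0) (a : ι → ℤ)
    (c : ℂ) : eval₂ i z (eqn a c) = 0 ↔ ∏ j, z j ^ a j = i c := by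
  have h1 : eval₂ i z (eqn a c) = ∏ j, z j ^ (a j).toNat - i c * ∏ j, z j ^ (-a j).toNat := by
    unfold eqn
    rw [eval₂_sub, eval₂_mul, eval₂_C, eval₂_prod, eval₂_prod]
    simp only [eval₂_pow, eval₂_X]
  have h2 : ∏ j, z j ^ (-a j).toNat ≠ 0 := Finset.prod_ne_zero_iff.2 fun j _ => pow_ne_zero _ (hz j)
  have h3 : ∏ j, z j ^ a j = (∏ j, z j ^ (a j).toNat) / ∏ j, z j ^ (-a j).toNat := by
    rw [← Finset.prod_div_distrib]
    refine Finset.prod_congr rfl fun j _ => ?_
    rw [← zpow_natCast, ← zpow_natCast, ← zpow_sub₀ (hz j), Int.toNat_sub_toNat_neg]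
  rw [h1, h3, sub_eq_zero, div_eq_iff h2]

theorem coe_mon {K : Type} [Field K] (x : ι → Kˣ) (a : ι → ℤ) :
    (mon x a : K) = ∏ j, vl x j ^ a j := by
  unfold mon vl
  rw [Units.coe_prod]
  exact Finset.prod_congr rfl fun j _ => Units.val_zpow_eq_zpow_val _ _

theorem eqn_gen {A : Set (ι → ℂ)} {K : Type} [Field K] {i : ℂ →+* K} {x : ι → Kˣ}
    (hx : IsGen A i x) (hA : ∀ y ∈ A, ∀ j, y j ≠ 0) (a : ι → ℤ) (c : ℂ) :
    (mon x a : K) = i c ↔ ∀ y ∈ A, ∏ j, y j ^ a j = c := by
  rw [coe_mon, ← eval_eqn i (z := vl x) (fun j => (x j).ne_zero), ← hx]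
  have h1 : eqn a c ∈ idealOf A ↔ ∀ y ∈ A, eval y (eqn a c) = 0 := by
    unfold idealOf
    simp [RingHom.mem_ker]
  rw [h1]
  refine forall₂_congr fun y hy => ?_
  have h2 := eval_eqn (RingHom.id ℂ) (hA y hy) a c
  rw [RingHom.id_apply] at h2
  exact h2

/-- roots of unity of `K` are complex numbers -/
theorem exists_root {K : Type} [Field K] (i : ℂ →+* K) {u : Kˣ} {m : ℕ} (hm : 0 < m)
    (hu : u ^ m = 1) : ∃ v : ℂˣ, Units.map (i : ℂ →* K) v = u := by
  classical
  obtain ⟨ζ, hζ⟩ : ∃ ζ : ℂ, IsPrimitiveRoot ζ m := ⟨_, Complex.isPrimitiveRoot_exp m hm.ne'⟩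
  have h1 : IsPrimitiveRoot (i ζ) m := hζ.map_of_injective i.injective
  have h2 : (u : K) ^ m = 1 := by rw [← Units.val_pow_eq_pow_val, hu, Units.val_one]
  have : NeZero m := ⟨hm.ne'⟩
  obtain ⟨k, _, hk⟩ := h1.eq_pow_of_pow_eq_one h2
  refine ⟨(hζ.isUnit hm.ne').unit ^ k, ?_⟩
  apply Units.ext
  rw [map_pow, Units.val_pow_eq_pow_val, ← hk]
  rfl

end TorL

open TorL in
theorem tor : S_TOR := by
  classical
  intro ι _ A K _ i x hx hA
  refine ⟨?_, ?_⟩
  · -- the relations are saturated
    have hsat : ∀ (a : ι → ℤ) (m : ℤ), m ≠ 0 → m • a ∈ rel x → a ∈ rel x := by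
      rintro a m hm ⟨n, hn, h⟩
      refine ⟨m.natAbs * n, Nat.mul_pos (Int.natAbs_pos.2 hm) hn, ?_⟩
      rw [mon_zsmul] at h
      rw [pow_mul]
      rcases Int.natAbs_eq m with h1 | h1
      · rw [h1, zpow_natCast] at h
        exact h
      · rw [h1, zpow_neg, zpow_natCast, inv_pow, inv_eq_one] at h
        exact h
    -- the roots of unity
    have hζ : ∀ a : rel x, ∃ v : ℂˣ, Units.map (i : ℂ →* K) v = mon x a := fun a => by
      obtain ⟨m, hm, h⟩ := a.2
      exact exists_root i hm h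
    choose ζ hζ using hζ
    have hinj : Function.Injective (Units.map (i : ℂ →* K)) :=
      Units.map_injective i.injective
    let Z : rel x →+ Additive ℂˣ :=
      { toFun := fun a => Additive.ofMul (ζ a)
        map_zero' := by
          rw [← ofMul_one]
          congr 1
          apply hinj
          rw [hζ, map_one]
          exact mon_zero x
        map_add' := fun a b => by
          rw [← ofMul_mul]
          congr 1
          apply hinj
          rw [hζ, map_mul, hζ, hζ]
          exact mon_add x a b }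
    -- the relations split off
    let Q := (ι → ℤ) ⧸ rel x
    have hQ : Module.IsTorsionFree ℤ Q := by
      refine Module.IsTorsionFree.of_smul_eq_zero fun m q h => ?_
      obtain ⟨a, rfl⟩ := (rel x).mkQ_surjective q
      rw [← map_smul, Submodule.mkQ_apply, Submodule.Quotient.mk_eq_zero] at h
      rw [Submodule.mkQ_apply, Submodule.Quotient.mk_eq_zero]
      by_cases hm : m = 0
      · exact Or.inl hm
      · exact Or.inr (hsat a m hm h)
    have hfree : Module.Free ℤ Q := Module.free_of_finite_type_torsion_free'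
    obtain ⟨s, hs⟩ := Module.projective_lifting_property (rel x).mkQ LinearMap.id
      (rel x).mkQ_surjective
    have hs' : ∀ q, (rel x).mkQ (s q) = q := fun q => by
      have := LinearMap.congr_fun hs q
      exact this
    let p : (ι → ℤ) →ₗ[ℤ] rel x := LinearMap.codRestrict (rel x)
      (LinearMap.id - s.comp (rel x).mkQ) (fun v => by
        have h1 : (rel x).mkQ (v - s ((rel x).mkQ v)) = 0 := by
          rw [map_sub, hs', sub_self]
        rwa [Submodule.mkQ_apply, Submodule.Quotient.mk_eq_zero] at h1)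
    have hp : ∀ a : rel x, p a = a := by
      intro a
      apply Subtype.ext
      change (a : ι → ℤ) - s ((rel x).mkQ a) = a
      have h1 : (rel x).mkQ (a : ι → ℤ) = 0 := by
        rw [Submodule.mkQ_apply, Submodule.Quotient.mk_eq_zero]
        exact a.2
      rw [h1, map_zero, sub_zero]
    let χ : (ι → ℤ) →+ Additive ℂˣ := Z.comp p.toAddMonoidHom
    let η : ι → ℂˣ := fun j => Additive.toMul (χ (Pi.single j 1))
    have hη : ∀ (a : ι → ℤ) (ha : a ∈ rel x), ∏ j, η j ^ a j = ζ ⟨a, ha⟩ := by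
      intro a ha
      have h1 : χ a = ∑ j, a j • χ (Pi.single j 1) := by
        have h2 : a = ∑ j, a j • (Pi.single j 1 : ι → ℤ) := by
          funext k
          rw [Finset.sum_apply, Finset.sum_eq_single k]
          · rw [Pi.smul_apply, Pi.single_eq_same, smul_eq_mul, mul_one]
          · intro b _ hb
            rw [Pi.smul_apply, Pi.single_eq_of_ne (Ne.symm hb), smul_zero]
          · intro h; exact absurd (Finset.mem_univ _) h
        conv_lhs => rw [h2]
        rw [map_sum]
        exact Finset.sum_congr rfl fun j _ => map_zsmul χ _ _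
      have h3 : χ a = Additive.ofMul (ζ ⟨a, ha⟩) := by
        change Additive.ofMul (ζ (p a)) = _
        rw [hp ⟨a, ha⟩]
      have h4 := congrArg Additive.toMul (h3.symm.trans h1)
      rw [toMul_sum] at h4
      exact h4.symm
    have htor : ∀ j, ∃ m : ℕ, 0 < m ∧ η j ^ m = 1 := by
      intro j
      obtain ⟨m, hm, h⟩ := (p (Pi.single j 1)).2
      refine ⟨m, hm, hinj ?_⟩
      rw [map_pow, map_one, ← h]
      congr 1
      exact hζ _
    choose m hm hηm using htor
    refine ⟨fun j => (η j : ℂ), ⟨hsat, ∏ j, m j, Finset.prod_pos fun j _ => hm j, fun j => ?_⟩, ?_⟩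
    · rw [← Finset.mul_prod_erase Finset.univ m (Finset.mem_univ j), pow_mul,
        ← Units.val_pow_eq_pow_val, hηm, Units.val_one, one_pow]
    · intro y hy
      refine ⟨hA y hy, fun a ha => ?_⟩
      have h1 : (mon x a : K) = i (ζ ⟨a, ha⟩ : ℂ) := by
        rw [← hζ ⟨a, ha⟩]
        rfl
      rw [(eqn_gen hx hA a _).1 h1 y hy, ← hη a ha, Units.coe_prod]
      exact Finset.prod_congr rfl fun j _ => Units.val_zpow_eq_zpow_val _ _
  · rintro M η ⟨_, m, hm, hη⟩ hAM a ha
    have h1 : (mon x a : K) = i (∏ j, η j ^ a j) :=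
      (eqn_gen hx hA a _).2 fun y hy => (hAM hy).2 a ha
    refine ⟨m, hm, ?_⟩
    apply Units.ext
    rw [Units.val_pow_eq_pow_val, h1, ← map_pow, ← Finset.prod_pow]
    have h2 : ∏ j, (η j ^ a j) ^ m = 1 := Finset.prod_eq_one fun j _ => by
      rw [← zpow_natCast, ← zpow_mul, mul_comm, zpow_mul, zpow_natCast, hη, one_zpow]
    rw [h2, map_one, Units.val_one]

end Pool.Agent.Helper9K9.ZU
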