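import Pool.Agent.Helper9K9.ZU.Core
import Pool.Agent.Helper9K9.ZU.Star
import Pool.Agent.Helper9K9.ZU.Hyp
import Pool.Agent.Helper9K9.ZU.Fin
import Pool.Agent.Helper9K9.ZU.Spec
import Pool.Agent.Helper9K9.ZU.Mono
import Pool.Agent.Helper9K9.ZU.Den
import Pool.Agent.Helper9K9.ZU.Chain
import Pool.Agent.Helper9K9.ZU.Pick
import Pool.Agent.Helper9K9.ZU.Tan
import Pool.Agent.Helper9K9.ZU.Jac
import Pool.Agent.Helper9K9.ZU.Loc
import Pool.Agent.Helper9K9.ZU.Gen
import Pool.Agent.Helper9K9.ZU.Comp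
import Pool.Agent.Helper9K9.ZU.Dim
import Pool.Agent.Helper9K9.ZU.Dlt
import Pool.Agent.Helper9K9.ZU.Cos
import Pool.Agent.Helper9K9.ZU.Ldim
import Pool.Agent.Helper9K9.ZU.Tor
import Pool.Agent.Helper9K9.ZU.Fa
import Pool.Agent.Helper9K9.ZU.Fb
import Pool.Agent.Helper9K9.ZU.End

/-!
The powers of the line are universal for the Zilber-Pink property of tori.
-/

set_option autoImplicit false

open MvPolynomial

namespace Pool.Agent.Helper9K9.ZU

theorem univ : (∀ k : ℕ, ZilberPink (line k)) ↔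
    ∀ (ι : Type) [Fintype ι] (S : Set (MvPolynomial ι ℂ)), ZilberPink (zeros S) := by
  constructor
  · intro h
    have h1 : S_CORE := core spec mono jac tanle chain pick den
    have h2 : S_STAR := star h1 spec en fa fb
    have h3 : HypL ℂ := hyp gen loc dim dlt comp tor cos ldim h
    exact fin gen dim dlt comp tor cos (h2 h3)
  · intro h k
    rw [line_eq]
    exact h _ _

end Pool.Agent.Helper9K9.ZU
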